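import Pool.Agent.W547.DP.Dual
import Pool.Agent.W547.HR.Defs
import Pool.Agent.W547.KB.Main

/-!
# For every Hodge class there is a Hodge class of complementary degree with nonzero product
-/

set_option linter.unusedSectionVars false
set_option linter.unusedVariables false

namespace Pool.Agent.W547.DP

open NumberField Pool.Agent.H204R3.CM Pool.Agent.W547.KB Equiv Module Pool.Agent.W547.HR

noncomputable section

theorem norm_emb {L : Type} [Field L] [NumberField L] (j : L →+* ℂ) {F : Type} [Field F]
    [NumberField F] (h : ∀ ψ : F →+* ℂ, ∃ φ : F →+* L, j.comp φ = ψ) (x : F) :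
    ((Algebra.norm ℚ x : ℚ) : L) = ∏ φ : F →+* L, φ x := by
  apply j.injective
  rw [map_ratCast, map_prod]
  have h1 := Algebra.norm_eq_prod_embeddings ℚ (L := F) ℂ x
  rw [eq_ratCast] at h1
  rw [h1]
  exact (Fintype.prod_equiv ((embEquiv j h).trans (RingHom.equivRatAlgHom F ℂ)) _ _
    (fun φ => rfl)).symm

variable {L : Type} [Field L] [NumberField L] {X : CMAV} {κ κ' : Type}
  [Fintype κ] [DecidableEq κ] [Fintype κ'] [DecidableEq κ']

theorem prod_wt (j : L →+* ℂ)
    (hj : ∀ i, ∀ ψ : (X.factor i).E →+* ℂ, ∃ φ : (X.factor i).E →+* L, j.comp φ = ψ) (a : X.H1) :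
    ∏ x : Wt X L, ev a x = ((∏ i, Algebra.norm ℚ (a i) : ℚ) : L) := by
  rw [Fintype.prod_sigma, Rat.cast_prod]
  refine Finset.prod_congr rfl fun i _ => ?_
  rw [norm_emb j (hj i)]
  rfl

theorem exists_dual_class (f : X.H1 [⋀^κ]→ₗ[ℚ] ℚ) (hf : IsHodge X.per f) (hne : f ≠ 0)
    (hcard : Fintype.card κ + Fintype.card κ' = finrank ℚ X.H1) (a : X.H1) (lam mu : ℚ)
    (hlam : lam ≠ 0) (ha : ∀ v, f (fun k => a * v k) = lam * f v)
    (hN : ∏ i, Algebra.norm ℚ (a i) = lam * mu) :
    ∃ g : X.H1 [⋀^κ']→ₗ[ℚ] ℚ, IsHodge X.per g ∧ (∀ v, g (fun k => a * v k) = mu * g v) ∧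
      ∃ v : κ ⊕ κ' → X.H1, altSum (times (fun u => f u) (fun u => g u)) v ≠ 0 := by
  classical
  rcases isEmpty_or_nonempty X.I with hI | hI
  · have h0 : finrank ℚ X.H1 = 0 := by
      have : Subsingleton X.H1 := inferInstance
      exact Module.finrank_zero_of_subsingleton
    rw [h0] at hcard
    have hκ : IsEmpty κ := Fintype.card_eq_zero_iff.1 (by omega)
    have hκ' : IsEmpty κ' := Fintype.card_eq_zero_iff.1 (by omega)
    have hmu : mu = 1 := by
      have h1 : lam = 1 := by
        have h2 := ha (fun k => isEmptyElim k)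
        have h3 : (fun k : κ => a * (isEmptyElim k : X.H1)) = fun k => isEmptyElim k :=
          funext fun k => isEmptyElim k
        rw [h3] at h2
        have h4 : f (fun k => isEmptyElim k) ≠ 0 := by
          intro h5
          apply hne
          ext v
          have h6 : v = fun k => isEmptyElim k := funext fun k => isEmptyElim k
          rw [h6, h5]
          rfl
        have h7 : (lam - 1) * f (fun k => isEmptyElim k) = 0 := by linear_combination -h2
        rcases mul_eq_zero.1 h7 with h8 | h8
        · linarith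
        · exact (h4 h8).elim
      have h2 : ∏ i, Algebra.norm ℚ (a i) = (1 : ℚ) := Finset.prod_of_isEmpty _
      rw [h2, h1] at hN
      linarith
    refine ⟨AlternatingMap.constOfIsEmpty ℚ _ _ 1, hodge_unit _, fun v => ?_,
      fun s => isEmptyElim s, ?_⟩
    · rw [hmu, one_mul]
      rfl
    · have h1 : f ≠ 0 := hne
      intro h2
      apply hne
      ext v
      have h6 : v = fun k => isEmptyElim k := funext fun k => isEmptyElim k
      rw [h6]
      have h3 : altSum (times (fun u => f u) (fun u => (AlternatingMap.constOfIsEmpty ℚ X.H1 κ'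
          (1 : ℚ)) u)) (fun s : κ ⊕ κ' => isEmptyElim s) =
          (Fintype.card (Perm (κ ⊕ κ')) : ℚ) * f (fun k => isEmptyElim k) := by
        unfold altSum times
        rw [Finset.sum_congr rfl (g := fun _ => f (fun k => isEmptyElim k)), Finset.sum_const,
          Finset.card_univ, nsmul_eq_mul]
        intro σ _
        have h4 : σ = 1 := Subsingleton.elim _ _
        rw [h4, Perm.sign_one]
        simp only [Units.val_one, Int.cast_one, one_mul, AlternatingMap.constOfIsEmpty_apply,
          Function.const_apply, mul_one]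
        exact congrArg f (funext fun k => isEmptyElim k)
      rw [h3] at h2
      rcases mul_eq_zero.1 h2 with h8 | h8
      · exact (Nat.cast_ne_zero.2 Fintype.card_ne_zero h8).elim
      · exact h8
  obtain ⟨L, _, _, _, _, j, hj⟩ := exists_cm X
  obtain ⟨g0, v0, hg0⟩ := exists_pairing hcard f hne
  obtain ⟨c, hc, hcb⟩ := exists_mono j hj f
  obtain ⟨d, hd, -⟩ := exists_mono j hj g0
  set FL : (κ → X.H1) → L := fun v => ((f v : ℚ) : L) with hFL
  have hcast : ∀ (g : X.H1 [⋀^κ']→ₗ[ℚ] ℚ) (v : κ ⊕ κ' → X.H1),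
      cupFun FL (fun u => ((g u : ℚ) : L)) v =
        ((altSum (times (fun u => f u) (fun u => g u)) v : ℚ) : L) := by
    intro g v
    unfold cupFun altSum times
    push_cast
    rfl
  -- a monomial with nonzero product
  obtain ⟨J, hJ⟩ : ∃ J : κ' → Wt X L, cupFun FL (mono J) ≠ 0 := by
    by_contra h
    push Not at h
    apply hg0
    have h1 : cupFun FL (fun u => ((g0 u : ℚ) : L)) v0 = 0 := by
      rw [hd, cupFun_sum_right]
      simp only [cupFun_smul_right, h, smul_zero, Finset.sum_const_zero]
      rfl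
    rw [hcast] at h1
    exact_mod_cast h1
  have hexp : cupFun FL (mono J) = ∑ I : κ → Wt X L, c I •
      (((Fintype.card (Perm κ) : L) * (Fintype.card (Perm κ') : L)) • mono (Sum.elim I J)) := by
    rw [hc, cupFun_sum_left]
    exact Finset.sum_congr rfl fun I _ => by rw [cupFun_smul_left, mono_cup]
  have hcardwt : Fintype.card (κ ⊕ κ') = Fintype.card (Wt X L) := by
    rw [Fintype.card_sum, hcard, card_wt j hj]
  have hbij : ∀ I : κ → Wt X L, mono (Sum.elim I J) ≠ 0 → Function.Bijective (Sum.elim I J) := by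
    intro I hI
    rw [Fintype.bijective_iff_injective_and_card]
    exact ⟨mono_ne_inj _ hI, hcardwt⟩
  obtain ⟨I, hcI, hI⟩ : ∃ I : κ → Wt X L, c I ≠ 0 ∧ mono (Sum.elim I J) ≠ 0 := by
    by_contra h
    push Not at h
    apply hJ
    rw [hexp]
    refine Finset.sum_eq_zero fun I _ => ?_
    by_cases hc0 : c I = 0
    · rw [hc0, zero_smul]
    · rw [h I hc0, smul_zero, smul_zero]
  have hbalJ : Balanced (fun k => St j (J k)) :=
    balanced_compl j I J (hbij I hI) (hcb hf I hcI)
  -- the eigenvalue
  obtain ⟨v1, hv1⟩ : ∃ v, cupFun FL (mono J) v ≠ 0 := by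
    by_contra h
    push Not at h
    exact hJ (funext h)
  have hact1 : cupFun FL (mono J) (fun s => a * v1 s) =
      (lam : L) * (∏ k, ev a (J k)) * cupFun FL (mono J) v1 := by
    unfold cupFun
    rw [Finset.mul_sum]
    refine Finset.sum_congr rfl fun σ _ => ?_
    have h1 : FL (fun k => a * v1 (σ (Sum.inl k))) = (lam : L) * FL (fun k => v1 (σ (Sum.inl k))) := by
      rw [hFL]
      simp only
      rw [ha (fun k => v1 (σ (Sum.inl k)))]
      push_cast
      rfl
    rw [h1, mono_mul a J (fun k => v1 (σ (Sum.inr k)))]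
    ring
  have hact2 : cupFun FL (mono J) (fun s => a * v1 s) =
      ((lam * mu : ℚ) : L) * cupFun FL (mono J) v1 := by
    rw [hexp, Finset.sum_apply, Finset.sum_apply, Finset.mul_sum]
    refine Finset.sum_congr rfl fun I' _ => ?_
    simp only [Pi.smul_apply, smul_eq_mul]
    by_cases h0 : mono (Sum.elim I' J) = 0
    · rw [h0]
      simp
    · rw [mono_mul a (Sum.elim I' J) v1]
      have h1 : ∏ s, ev a (Sum.elim I' J s) = ((lam * mu : ℚ) : L) := by
        rw [← hN, ← prod_wt j hj a]
        exact Equiv.prod_comp (Equiv.ofBijective _ (hbij I' h0)) (fun x => ev a x)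
      rw [h1]
      ring
  have hpiJ : ∏ k, ev a (J k) = (mu : L) := by
    have h1 : (lam : L) * (∏ k, ev a (J k)) = ((lam * mu : ℚ) : L) := by
      have h2 := hact1.symm.trans hact2
      exact mul_right_cancel₀ hv1 h2
    have h3 : (lam : L) ≠ 0 := by exact_mod_cast hlam
    apply mul_left_cancel₀ h3
    rw [h1]
    push_cast
    rfl
  -- a trace form
  obtain ⟨n, al, be, hab⟩ := exists_dual L
  have hmJ : mono J = ∑ i, be i • (fun v : κ' → X.H1 => ((trForm (al i) J v : ℚ) : L)) := by
    funext v
    rw [Finset.sum_apply]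
    exact hab (mono J v)
  obtain ⟨i, hi⟩ : ∃ i, cupFun FL (fun v : κ' → X.H1 => ((trForm (al i) J v : ℚ) : L)) ≠ 0 := by
    by_contra h
    push Not at h
    apply hJ
    rw [hmJ, cupFun_sum_right]
    simp only [cupFun_smul_right, h, smul_zero, Finset.sum_const_zero]
  refine ⟨trForm (al i) J, isHodge_trForm j J hbalJ (al i), fun v => ?_, ?_⟩
  · rw [trForm_apply, trForm_apply, mono_mul, hpiJ]
    have h1 : al i * ((mu : L) * mono J v) = mu • (al i * mono J v) := by
      rw [Algebra.smul_def, eq_ratCast]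
      ring
    rw [h1, map_smul, smul_eq_mul]
  · by_contra h
    push Not at h
    apply hi
    funext v
    rw [hcast, h v]
    simp

end

end Pool.Agent.W547.DP
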