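import Pool.Agent.W547.DP.Ext
import Pool.Agent.W547.LQ.Quot

/-!
# The dimensions of the spaces of Tate classes
-/

set_option linter.unusedSectionVars false
set_option linter.unusedVariables false

namespace Pool.Agent.W547.DP

open NumberField Pool.Agent.H204R3.CM Pool.Agent.W547.KB Pool.Agent.W547.LD Pool.Agent.W530.NF
open Equiv Module Pool.Agent.W547.HR

noncomputable section

/-- The rational forms multiplied by `Q` by the element `a`. -/
def RatEig (X : CMAV) (a : X.H1) (Q : ℚ) (κ : Type) : Submodule ℚ (X.H1 [⋀^κ]→ₗ[ℚ] ℚ) where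
  carrier := {f | ∀ v, f (fun k => a * v k) = Q * f v}
  zero_mem' := fun v => by simp
  add_mem' := fun {f g} hf hg v => by
    rw [AlternatingMap.add_apply, AlternatingMap.add_apply, hf v, hg v, mul_add]
  smul_mem' := fun c f hf v => by
    rw [AlternatingMap.smul_apply, AlternatingMap.smul_apply, hf v, smul_eq_mul, smul_eq_mul]
    ring

theorem mem_ratEig {X : CMAV} {a : X.H1} {Q : ℚ} {κ : Type} {f : X.H1 [⋀^κ]→ₗ[ℚ] ℚ} :
    f ∈ RatEig X a Q κ ↔ ∀ v, f (fun k => a * v k) = Q * f v := Iff.rfl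

variable {K V : Type} [Field K] [AddCommGroup V] [Module K V]

/-- The forms multiplied by `c` by the endomorphism `F`. -/
def FormEig (F : V →ₗ[K] V) (c : K) (κ : Type) : Submodule K (V [⋀^κ]→ₗ[K] K) where
  carrier := {f | ∀ v, f (fun k => F (v k)) = c * f v}
  zero_mem' := fun v => by simp
  add_mem' := fun {f g} hf hg v => by
    rw [AlternatingMap.add_apply, AlternatingMap.add_apply, hf v, hg v, mul_add]
  smul_mem' := fun b f hf v => by
    rw [AlternatingMap.smul_apply, AlternatingMap.smul_apply, hf v, smul_eq_mul, smul_eq_mul]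
    ring

theorem mem_formEig {F : V →ₗ[K] V} {c : K} {κ : Type} {f : V [⋀^κ]→ₗ[K] K} :
    f ∈ FormEig F c κ ↔ ∀ v, f (fun k => F (v k)) = c * f v := Iff.rfl

theorem finrank_formEig [FiniteDimensional K V] (F : V →ₗ[K] V) (c : K) (m : ℕ) :
    finrank K (FormEig F c (Fin m)) =
      finrank K (Module.End.eigenspace (exteriorPower.map m F) c) := by
  let W := ⋀[K]^m V
  let T : W →ₗ[K] W := exteriorPower.map m F
  let D : W →ₗ[K] W := T - algebraMap K (Module.End K W) c
  let e : (V [⋀^Fin m]→ₗ[K] K) ≃ₗ[K] (W →ₗ[K] K) := exteriorPower.alternatingMapLinearEquiv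
  have h1 : (FormEig F c (Fin m)).map (e : (V [⋀^Fin m]→ₗ[K] K) →ₗ[K] (W →ₗ[K] K)) =
      LinearMap.ker D.dualMap := by
    ext l
    obtain ⟨z, rfl⟩ := e.surjective l
    have h2 : e z ∈ (FormEig F c (Fin m)).map
        (e : (V [⋀^Fin m]→ₗ[K] K) →ₗ[K] (W →ₗ[K] K)) ↔ z ∈ FormEig F c (Fin m) := by
      rw [Submodule.mem_map]
      constructor
      · rintro ⟨z', hz', h⟩
        rwa [← e.injective h]
      · intro h
        exact ⟨z, h, rfl⟩
    rw [h2, LinearMap.mem_ker]
    constructor
    · intro hz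
      rw [LinearMap.dualMap_apply']
      apply exteriorPower.linearMap_ext
      ext v
      have h3 := hz v
      have h4 : e z (D (exteriorPower.ιMulti K m v)) = 0 := by
        change e z (T (exteriorPower.ιMulti K m v) - c • exteriorPower.ιMulti K m v) = 0
        rw [map_sub, map_smul]
        change e z (exteriorPower.map m F (exteriorPower.ιMulti K m v)) - _ = 0
        rw [exteriorPower.map_apply_ιMulti]
        change exteriorPower.alternatingMapLinearEquiv z _ - c • exteriorPower.alternatingMapLinearEquiv z _ = 0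
        rw [exteriorPower.alternatingMapLinearEquiv_apply_ιMulti,
          exteriorPower.alternatingMapLinearEquiv_apply_ιMulti, smul_eq_mul]
        exact sub_eq_zero.2 h3
      exact h4
    · intro hz v
      have h4 : e z (D (exteriorPower.ιMulti K m v)) = 0 := by
        have := LinearMap.congr_fun hz (exteriorPower.ιMulti K m v)
        exact this
      change e z (T (exteriorPower.ιMulti K m v) - c • exteriorPower.ιMulti K m v) = 0 at h4
      rw [map_sub, map_smul] at h4
      change e z (exteriorPower.map m F (exteriorPower.ιMulti K m v)) - _ = 0 at h4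
      rw [exteriorPower.map_apply_ιMulti] at h4
      change exteriorPower.alternatingMapLinearEquiv z _ - c • exteriorPower.alternatingMapLinearEquiv z _ = 0 at h4
      rw [exteriorPower.alternatingMapLinearEquiv_apply_ιMulti,
        exteriorPower.alternatingMapLinearEquiv_apply_ιMulti, smul_eq_mul] at h4
      exact sub_eq_zero.1 h4
  have h3 : finrank K (FormEig F c (Fin m)) = finrank K (LinearMap.ker D.dualMap) := by
    rw [← h1]
    exact (LinearEquiv.finrank_eq (Submodule.equivMapOfInjective _ e.injective _))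
  have h4 := D.dualMap.finrank_range_add_finrank_ker
  have h5 := D.finrank_range_add_finrank_ker
  rw [LinearMap.finrank_range_dualMap_eq_finrank_range, Subspace.dual_finrank_eq] at h4
  have h6 : Module.End.eigenspace (exteriorPower.map m F) c = LinearMap.ker D :=
    Module.End.eigenspace_def
  rw [h3, h6]
  exact Nat.add_left_cancel (h4.trans h5.symm)

theorem finite_forms {R M : Type} [Field R] [AddCommGroup M] [Module R M] [FiniteDimensional R M]
    (κ : Type) [Finite κ] : FiniteDimensional R (M [⋀^κ]→ₗ[R] R) := by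
  let T : (M [⋀^κ]→ₗ[R] R) →ₗ[R] MultilinearMap R (fun _ : κ => M) R :=
    { toFun := fun f => f.toMultilinearMap
      map_add' := fun _ _ => rfl
      map_smul' := fun _ _ => rfl }
  refine FiniteDimensional.of_injective T ?_
  intro f g h
  ext v
  exact congrFun (congrArg DFunLike.coe h) v

/-- The `K`-dimension of the space of Tate classes is the rational dimension of the space of
rational Tate classes. -/
theorem finrank_eig {X : CMAV} [CharZero K] (C : Comparison X K V) (F : V →ₗ[K] V) (a : X.H1)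
    (hF : ∀ x, F (C.ι x) = C.ι (a * x)) (Q : ℚ) (κ : Type) [Finite κ] :
    finrank K (FormEig F (Q : K) κ) = finrank ℚ (RatEig X a Q κ) := by
  classical
  let _ : Algebra ℚ K := DivisionRing.toRatAlgebra
  have hfin : FiniteDimensional ℚ (X.H1 [⋀^κ]→ₗ[ℚ] ℚ) := finite_forms κ
  let b := Module.finBasis ℚ (RatEig X a Q κ)
  have hz : ∀ i, ∃ z : V [⋀^κ]→ₗ[K] K, ∀ v : κ → X.H1, z (fun k => C.ι (v k)) =
      (((b i : X.H1 [⋀^κ]→ₗ[ℚ] ℚ) v : ℚ) : K) := fun i => exists_ext C _
  choose z hz using hz
  have hmem : ∀ i, z i ∈ FormEig F (Q : K) κ := by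
    intro i
    let T : V [⋀^κ]→ₗ[K] K := (z i).compLinearMap F - (Q : K) • z i
    have hT : T = 0 := by
      refine LQ.eq_zero_of_restr C T fun v => ?_
      change z i (fun k => F (C.ι (v k))) - (Q : K) * z i (fun k => C.ι (v k)) = 0
      simp only [hF]
      rw [hz, hz, (b i).2 v]
      push_cast
      ring
    intro v
    have h1 : T v = 0 := by rw [hT]; rfl
    change z i (fun k => F (v k)) - (Q : K) * z i v = 0 at h1
    exact sub_eq_zero.1 h1
  let Ψ : (Fin (finrank ℚ (RatEig X a Q κ)) → K) →ₗ[K] (V [⋀^κ]→ₗ[K] K) :=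
    { toFun := fun c => ∑ i, c i • z i
      map_add' := fun c d => by
        simp only [Pi.add_apply, add_smul, Finset.sum_add_distrib]
      map_smul' := fun e c => by
        simp only [Pi.smul_apply, smul_eq_mul, mul_smul, RingHom.id_apply, Finset.smul_sum] }
  let E : (κ → X.H1) → (V [⋀^κ]→ₗ[K] K) →ₗ[K] K := fun v =>
    { toFun := fun f => f (fun k => C.ι (v k))
      map_add' := fun _ _ => rfl
      map_smul' := fun _ _ => rfl }
  have hE : ∀ v i, E v (z i) = (((b i : X.H1 [⋀^κ]→ₗ[ℚ] ℚ) v : ℚ) : K) := fun v i => hz i v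
  have hinj : Function.Injective Ψ := by
    rw [← LinearMap.ker_eq_bot, LinearMap.ker_eq_bot']
    intro c hc
    funext i
    by_contra hne
    have h1 : ∑ i, c i • z i = 0 := hc
    obtain ⟨l, hl⟩ : ∃ l : K →+ ℚ, l (c i) ≠ 0 := by
      have h1 : c i ∉ (⊥ : Submodule ℚ K) := fun h => hne ((Submodule.mem_bot ℚ).1 h)
      obtain ⟨l, hl, _⟩ := Submodule.exists_dual_map_eq_bot_of_notMem h1 inferInstance
      exact ⟨l.toAddMonoidHom, hl⟩
    have h3 : ∑ i, l (c i) • (b i : X.H1 [⋀^κ]→ₗ[ℚ] ℚ) = 0 := by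
      ext v
      have h4 := congrArg (E v) h1
      rw [map_sum, map_zero] at h4
      simp only [map_smul, hE, smul_eq_mul] at h4
      have h5 := congrArg l h4
      rw [map_sum, map_zero] at h5
      let ev : (X.H1 [⋀^κ]→ₗ[ℚ] ℚ) →+ ℚ :=
        { toFun := fun f => f v, map_zero' := rfl, map_add' := fun _ _ => rfl }
      have h6 : (∑ i, l (c i) • (b i : X.H1 [⋀^κ]→ₗ[ℚ] ℚ)) v =
        ∑ i, (l (c i) • (b i : X.H1 [⋀^κ]→ₗ[ℚ] ℚ)) v := map_sum ev _ _
      rw [h6, AlternatingMap.zero_apply, ← h5]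
      refine Finset.sum_congr rfl fun i _ => ?_
      have h2 : c i * (((b i : X.H1 [⋀^κ]→ₗ[ℚ] ℚ) v : ℚ) : K) =
          ((b i : X.H1 [⋀^κ]→ₗ[ℚ] ℚ) v) • c i := by
        rw [Rat.smul_def, mul_comm]
      rw [h2, map_rat_smul, AlternatingMap.smul_apply, smul_eq_mul, smul_eq_mul, mul_comm]
    have h4 : ∑ i, l (c i) • b i = 0 := by
      apply Subtype.ext
      rw [Submodule.coe_sum]
      exact h3
    exact hl (Fintype.linearIndependent_iff.1 b.linearIndependent (fun i => l (c i)) h4 i)
  have hspan : FormEig F (Q : K) κ ≤ LinearMap.range Ψ := by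
    intro g hg
    obtain ⟨n, c, gr, hc, hgr⟩ := exists_decomp (LF.restr C g)
    have hgr' : ∀ v : κ → X.H1, g (fun k => C.ι (v k)) = ∑ i, gr i v • c i := hgr
    have hmem' : ∀ i, gr i ∈ RatEig X a Q κ := by
      intro i v
      have h1 := hg (fun k => C.ι (v k))
      simp only [hF] at h1
      rw [hgr', hgr'] at h1
      have h2 : ∑ i, (gr i (fun k => a * v k) - Q * gr i v) • c i = 0 := by
        simp only [sub_smul, Finset.sum_sub_distrib]
        rw [h1, sub_eq_zero, Finset.mul_sum]
        refine Finset.sum_congr rfl fun i _ => ?_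
        rw [mul_smul, Algebra.smul_def Q, eq_ratCast]
      have h3 := Fintype.linearIndependent_iff.1 hc _ h2 i
      linarith [h3]
    have h1 : g = ∑ i, (∑ l, c l * ((b.repr ⟨gr l, hmem' l⟩ i : ℚ) : K)) • z i := by
      rw [← sub_eq_zero]
      refine LQ.eq_zero_of_restr C _ fun v => ?_
      change g (fun k => C.ι (v k)) - (∑ i, (∑ l, c l * ((b.repr ⟨gr l, hmem' l⟩ i : ℚ) : K)) • z i)
        (fun k => C.ι (v k)) = 0
      have h2 : (∑ i, (∑ l, c l * ((b.repr ⟨gr l, hmem' l⟩ i : ℚ) : K)) • z i)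
        (fun k => C.ι (v k)) = ∑ i, (∑ l, c l * ((b.repr ⟨gr l, hmem' l⟩ i : ℚ) : K)) *
          (((b i : X.H1 [⋀^κ]→ₗ[ℚ] ℚ) v : ℚ) : K) := by
        change E v _ = _
        rw [map_sum]
        refine Finset.sum_congr rfl fun i _ => ?_
        rw [map_smul, hE, smul_eq_mul]
      rw [h2, hgr', sub_eq_zero]
      simp only [Finset.sum_mul]
      rw [Finset.sum_comm]
      refine Finset.sum_congr rfl fun l _ => ?_
      have h3 : gr l v = ∑ i, b.repr ⟨gr l, hmem' l⟩ i * (b i : X.H1 [⋀^κ]→ₗ[ℚ] ℚ) v := by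
        have h4 := congrArg Subtype.val (b.sum_repr ⟨gr l, hmem' l⟩)
        rw [Submodule.coe_sum] at h4
        let ev : (X.H1 [⋀^κ]→ₗ[ℚ] ℚ) →ₗ[ℚ] ℚ :=
          { toFun := fun f => f v
            map_add' := fun _ _ => rfl
            map_smul' := fun _ _ => rfl }
        have h5 := congrArg ev h4
        rw [map_sum] at h5
        refine Eq.trans h5.symm ?_
        refine Finset.sum_congr rfl fun i _ => ?_
        rfl
      rw [h3, Algebra.smul_def, eq_ratCast, Rat.cast_sum, Finset.sum_mul]
      refine Finset.sum_congr rfl fun i _ => ?_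
      push_cast
      ring
    exact ⟨fun i => ∑ l, c l * ((b.repr ⟨gr l, hmem' l⟩ i : ℚ) : K), h1.symm⟩
  have hle : LinearMap.range Ψ ≤ FormEig F (Q : K) κ := by
    rintro _ ⟨c, rfl⟩
    exact Submodule.sum_mem _ fun i _ => Submodule.smul_mem _ _ (hmem i)
  have h1 : LinearMap.range Ψ = FormEig F (Q : K) κ := le_antisymm hle hspan
  rw [← h1, LinearMap.finrank_range_of_inj hinj, Module.finrank_fin_fun]

end

end Pool.Agent.W547.DP
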