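import Pool.Agent.W547.HR.Defs

/-!
# Numerically trivial classes
-/

namespace Pool.Agent.W547.DP

open Module Pool.Agent.W547.KB Pool.Agent.W547.LD Pool.Agent.W530.NF Pool.Agent.W547.HR

/-- The class `z` is orthogonal to the ring generated by divisors and by pull-backs of split Weil
classes: the cup product of `z` with every class of complementary degree in this ring is zero. If
the classes in this ring are algebraic, every numerically trivial `z` has this property. -/
def IsOrthogonal {X : CMAV} {K V : Type} [Field K] [AddCommGroup V] [Module K V]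
    (C : Comparison X K V) {κ : Type} [Fintype κ] [DecidableEq κ] (z : V [⋀^κ]→ₗ[K] K) : Prop :=
  ∀ (κ' : Type) [Fintype κ'] [DecidableEq κ'] (h : X.H1 [⋀^κ']→ₗ[ℚ] ℚ),
    Fintype.card κ + Fintype.card κ' = finrank ℚ X.H1 → DWRing X κ' h →
      ∀ v : κ ⊕ κ' → X.H1, altSum (times (onH1 C z) (fun u => ((h u : ℚ) : K))) v = 0

end Pool.Agent.W547.DP
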