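import Pool.Agent.W547.DP.DMain

/-!
# The standard conjecture D for ordinary abelian varieties: the families
-/

set_option linter.unusedSectionVars false
set_option linter.unusedVariables false

namespace Pool.Agent.W547.DP

open NumberField Pool.Agent.H204R3.CM Pool.Agent.W547.KB Pool.Agent.W547.LD Pool.Agent.W530.NF
open Equiv Module Pool.Agent.W547.HR

noncomputable section

/-- Powers of ordinary abelian varieties of dimension at most five. -/
theorem conjectureD_five (Y : CMAV) (hY : finrank ℚ Y.H1 ≤ 10) (n : ℕ)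
    (p : ℕ) [Fact p.Prime] (a : ℕ) (ha : 0 < a) (ν : PadicAlgCl p ≃+* ℂ) (π : (powerX Y n).H1)
    (hπ : LN.IsCanonicalLift p a ν (powerX Y n) π) {K V : Type} [Field K] [CharZero K]
    [AddCommGroup V] [Module K V] (C : Comparison (powerX Y n) K V) (F : V →ₗ[K] V)
    (hF : LN.IsFrobeniusMap C π F) {r s : ℕ} (hs : 0 < s) (z : V [⋀^Fin (2 * r)]→ₗ[K] K)
    (htate : LN.IsTateClassOver F (p ^ a) s z) (horth : IsOrthogonal C z) : z = 0 :=
  conjectureD (powerX Y n) (fun f hf => ring_five Y hY n f hf) p a ha ν π hπ C F hF hs z htate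
    horth

/-- Products of copies of an ordinary abelian variety with complex multiplication by a field of
degree at most fourteen. -/
theorem conjectureD_seven (A : CMPair) (hA : finrank ℚ A.E ≤ 14) (X : CMAV)
    (hX : ∀ i, X.factor i = A)
    (p : ℕ) [Fact p.Prime] (a : ℕ) (ha : 0 < a) (ν : PadicAlgCl p ≃+* ℂ) (π : X.H1)
    (hπ : LN.IsCanonicalLift p a ν X π) {K V : Type} [Field K] [CharZero K] [AddCommGroup V]
    [Module K V] (C : Comparison X K V) (F : V →ₗ[K] V) (hF : LN.IsFrobeniusMap C π F)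
    {r s : ℕ} (hs : 0 < s) (z : V [⋀^Fin (2 * r)]→ₗ[K] K)
    (htate : LN.IsTateClassOver F (p ^ a) s z) (horth : IsOrthogonal C z) : z = 0 :=
  conjectureD X (fun f hf => TM.ring_of_hodge_copies A hA X hX f hf) p a ha ν π hπ C F hF hs z
    htate horth

/-- Products of ordinary abelian varieties with small simple factors. -/
theorem conjectureD_small (X : CMAV) (hX : LN.SmallFactors X)
    (p : ℕ) [Fact p.Prime] (a : ℕ) (ha : 0 < a) (ν : PadicAlgCl p ≃+* ℂ) (π : X.H1)
    (hπ : LN.IsCanonicalLift p a ν X π) {K V : Type} [Field K] [CharZero K] [AddCommGroup V]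
    [Module K V] (C : Comparison X K V) (F : V →ₗ[K] V) (hF : LN.IsFrobeniusMap C π F)
    {r s : ℕ} (hs : 0 < s) (z : V [⋀^Fin (2 * r)]→ₗ[K] K)
    (htate : LN.IsTateClassOver F (p ^ a) s z) (horth : IsOrthogonal C z) : z = 0 :=
  conjectureD X (fun f hf => LN.ring_small X hX f hf) p a ha ν π hπ C F hF hs z htate horth

end

end Pool.Agent.W547.DP
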