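import Pool.Agent.W547.DP.DDefs
import Pool.Agent.W547.DP.Class
import Pool.Agent.W547.HR.Final

/-!
# The standard conjecture D for ordinary abelian varieties
-/

set_option linter.unusedSectionVars false
set_option linter.unusedVariables false

namespace Pool.Agent.W547.DP

open NumberField Pool.Agent.H204R3.CM Pool.Agent.W547.KB Pool.Agent.W547.LD Pool.Agent.W530.NF
open Equiv Module Pool.Agent.W547.HR

noncomputable section

theorem eq_zero_of_generated (X : CMAV)
    (hring : ∀ {κ : Type} [Finite κ] (f : X.H1 [⋀^κ]→ₗ[ℚ] ℚ), IsHodge X.per f → DWRing X κ f)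
    {K V : Type} [Field K] [CharZero K] [AddCommGroup V]
    [Module K V] (C : Comparison X K V) {κ : Type} [Fintype κ] [DecidableEq κ]
    (hκ : Fintype.card κ ≤ finrank ℚ X.H1) (z : V [⋀^κ]→ₗ[K] K)
    (hgen : LN.IsGenerated C z) (horth : IsOrthogonal C z) : z = 0 := by
  classical
  by_contra hz
  obtain ⟨v0, hv0⟩ : ∃ v0 : κ → X.H1, onH1 C z v0 ≠ 0 := by
    by_contra h
    push Not at h
    exact hz (LQ.eq_zero_of_restr C z h)
  obtain ⟨l, hl⟩ : ∃ l : K →+ ℚ, l (onH1 C z v0) ≠ 0 := by
    let _ : Algebra ℚ K := DivisionRing.toRatAlgebra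
    have h1 : onH1 C z v0 ∉ (⊥ : Submodule ℚ K) := fun h => hv0 ((Submodule.mem_bot ℚ).1 h)
    obtain ⟨l, hl, _⟩ := Submodule.exists_dual_map_eq_bot_of_notMem h1 inferInstance
    exact ⟨l.toAddMonoidHom, hl⟩
  obtain ⟨p, hp, hpv⟩ := exists_functional_form C z hgen l
  have hp0 : p ≠ 0 := by
    intro h
    apply hl
    rw [← hpv, h]
    rfl
  obtain ⟨g, hg, -, v, hv⟩ := exists_dual_class (κ' := Fin (finrank ℚ X.H1 - Fintype.card κ)) p
    (isHodge_of_ring hp) hp0 (by rw [Fintype.card_fin]; omega) 1 1 1 one_ne_zero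
    (fun v => by simp) (by simp)
  have h1 := congrArg l (horth _ g (by rw [Fintype.card_fin]; omega) (hring g hg) v)
  rw [functional_altSum, map_zero] at h1
  apply hv
  rw [← h1]
  congr 1
  funext w
  unfold times
  beta_reduce
  rw [hpv]

theorem eq_zero_of_lt {K V : Type} [Field K] [AddCommGroup V] [Module K V] {κ : Type} [Fintype κ]
    (h : finrank K V < Fintype.card κ) (hV : Module.Finite K V) (z : V [⋀^κ]→ₗ[K] K) : z = 0 := by
  ext v
  refine z.map_linearDependent v fun hli => ?_
  have := hli.fintype_card_le_finrank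
  omega

/-- The standard conjecture D for an ordinary abelian variety such that the Hodge ring of
the canonical lift is generated by divisors and by pull-backs of split Weil classes. -/
theorem conjectureD (X : CMAV)
    (hring : ∀ {κ : Type} [Finite κ] (f : X.H1 [⋀^κ]→ₗ[ℚ] ℚ), IsHodge X.per f → DWRing X κ f)
    (p : ℕ) [Fact p.Prime] (a : ℕ) (ha : 0 < a) (ν : PadicAlgCl p ≃+* ℂ) (π : X.H1)
    (hπ : LN.IsCanonicalLift p a ν X π) {K V : Type} [Field K] [CharZero K] [AddCommGroup V]
    [Module K V] (C : Comparison X K V) (F : V →ₗ[K] V) (hF : LN.IsFrobeniusMap C π F)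
    {r s : ℕ} (hs : 0 < s) (z : V [⋀^Fin (2 * r)]→ₗ[K] K)
    (htate : LN.IsTateClassOver F (p ^ a) s z) (horth : IsOrthogonal C z) : z = 0 := by
  have hfin : Module.Finite K V := by
    classical
    let b := Module.finBasis ℚ X.H1
    refine ⟨⟨Finset.univ.image (fun i => C.ι (b i)), ?_⟩⟩
    rw [eq_top_iff, ← C.span_eq, Submodule.span_le]
    rintro _ ⟨w, rfl⟩
    rw [← b.sum_repr w, map_sum]
    refine Submodule.sum_mem _ fun i _ => ?_
    let _ : Algebra ℚ K := DivisionRing.toRatAlgebra
    let _ : Module ℚ V := Module.compHom V (algebraMap ℚ K)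
    have h1 : C.ι ((b.repr w i) • b i) = ((b.repr w i : ℚ) : K) • C.ι (b i) := by
      rw [map_rat_smul C.ι]
      rfl
    rw [h1]
    refine Submodule.smul_mem _ _ (Submodule.subset_span ?_)
    simp
  rcases Nat.lt_or_ge (finrank ℚ X.H1) (2 * r) with hr | hr
  · refine eq_zero_of_lt ?_ hfin z
    rw [C.finrank_eq, Fintype.card_fin]
    exact hr
  have hp : p.Prime := Fact.out
  have hST : ShimuraTaniyama X (TF.absC p ν) (p ^ a) π := by
    constructor
    · intro i φ hφ
      rw [TF.absC_cast]
      exact hπ.slope_one i φ hφ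
    · intro i φ hφ
      exact hπ.slope_zero i φ hφ
  have hw : TF.absC p ν ((p ^ a : ℕ) : ℂ) < 1 := by
    rw [TF.absC_cast, norm_pow, TF.norm_p]
    refine pow_lt_one₀ (by positivity) ?_ ha.ne'
    rw [inv_lt_one₀ (by exact_mod_cast hp.pos)]
    exact_mod_cast hp.one_lt
  have hFs : ∀ (N : ℕ) (x : X.H1), (F ^ N) (C.ι x) = C.ι (π ^ N * x) := by
    intro N
    induction N with
    | zero =>
      intro x
      simp
    | succ N ih =>
      intro x
      rw [pow_succ', Module.End.mul_apply, ih, pow_succ', mul_assoc]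
      exact hF _
  have hgen : LN.IsGenerated C z := by
    refine LN.generated_of_ring X hring C (TF.absC p ν) (p ^ a)
      (pow_pos hp.pos a).ne' hw π hST s r hs.ne' _ fun v => ?_
    have h1 := htate (fun k => C.ι (v k))
    simp only [hFs s] at h1
    exact h1
  exact eq_zero_of_generated X hring C (by rw [Fintype.card_fin]; exact hr) z hgen horth

end

end Pool.Agent.W547.DP
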