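import Pool.Agent.W547.DP.Pairing
import Pool.Agent.W547.KB.Closure
import Pool.Agent.H204R3.CM.Coef

/-!
# The pairing between Hodge classes of complementary degrees is nondegenerate
-/

set_option linter.unusedSectionVars false
set_option linter.unusedVariables false

namespace Pool.Agent.W547.DP

open NumberField Pool.Agent.H204R3.CM Pool.Agent.W547.KB Equiv Module

noncomputable section

variable {L : Type} [Field L] [NumberField L] {X : CMAV} {κ κ' : Type}
  [Fintype κ] [DecidableEq κ] [Fintype κ'] [DecidableEq κ']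

/-- Expansion of a rational form in monomials. -/
theorem exists_mono (j : L →+* ℂ)
    (hj : ∀ i, ∀ ψ : (X.factor i).E →+* ℂ, ∃ φ : (X.factor i).E →+* L, j.comp φ = ψ)
    (f : X.H1 [⋀^κ]→ₗ[ℚ] ℚ) :
    ∃ c : (κ → Wt X L) → L, (fun v : κ → X.H1 => ((f v : ℚ) : L)) = ∑ I, c I • mono I ∧
      (IsHodge X.per f → ∀ I, c I ≠ 0 → Balanced (fun k => St j (I k))) := by
  classical
  obtain ⟨c, hc⟩ := form_coeff (E := fun i : X.I => (X.factor i).E) (fun i : X.I => i) j hj
    f.toMultilinearMap
  have hne : ((Fintype.card (Perm κ) : ℕ) : L) ≠ 0 := Nat.cast_ne_zero.2 Fintype.card_ne_zero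
  have hsum : ((Fintype.card (Perm κ) : ℕ) : L) • (fun v : κ → X.H1 => ((f v : ℚ) : L)) =
      ∑ I : κ → Wt X L, c I • mono I := by
    funext v
    rw [Finset.sum_apply, Pi.smul_apply, smul_eq_mul]
    have h1 : ∀ σ : Perm κ, ((f v : ℚ) : L) = ((Perm.sign σ : ℤ) : L) *
        ∑ I : κ → Wt X L, c I * ∏ k, ev (v (σ k)) (I k) := by
      intro σ
      have h2 : ((f (fun k => v (σ k)) : ℚ) : L) =
          ∑ I : κ → Wt X L, c I * ∏ k, ev (v (σ k)) (I k) := hc (fun k => v (σ k))
      rw [← h2]
      have h3 : f (fun k => v (σ k)) = Perm.sign σ • f v := f.map_perm v σ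
      rw [h3, Units.smul_def, zsmul_eq_mul, Rat.cast_mul, Rat.cast_intCast, ← mul_assoc,
        ← Int.cast_mul, ← Units.val_mul, Int.units_mul_self, Units.val_one, Int.cast_one, one_mul]
    have h4 : ((Fintype.card (Perm κ) : ℕ) : L) * ((f v : ℚ) : L) =
        ∑ σ : Perm κ, ((Perm.sign σ : ℤ) : L) *
          ∑ I : κ → Wt X L, c I * ∏ k, ev (v (σ k)) (I k) := by
      rw [← Finset.sum_congr rfl (fun σ _ => h1 σ), Finset.sum_const, Finset.card_univ,
        nsmul_eq_mul]
    rw [h4]
    simp only [Finset.mul_sum]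
    rw [Finset.sum_comm]
    refine Finset.sum_congr rfl fun I _ => ?_
    rw [Pi.smul_apply, smul_eq_mul, mono_apply, Finset.mul_sum]
    refine Finset.sum_congr rfl fun σ _ => ?_
    ring
  refine ⟨fun I => ((Fintype.card (Perm κ) : ℕ) : L)⁻¹ * c I, ?_, fun hf I hI σ => ?_⟩
  · have h1 : (fun v : κ → X.H1 => ((f v : ℚ) : L)) = ((Fintype.card (Perm κ) : ℕ) : L)⁻¹ •
        (((Fintype.card (Perm κ) : ℕ) : L) • (fun v : κ → X.H1 => ((f v : ℚ) : L))) := by
      rw [smul_smul, inv_mul_cancel₀ hne, one_smul]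
    rw [h1, hsum, Finset.smul_sum]
    exact Finset.sum_congr rfl fun I _ => smul_smul _ _ _
  · have h2 := balanced_of_hodge (E := fun i : X.I => (X.factor i).E)
      (Φ := fun i : X.I => (X.factor i).Φ) (fun i : X.I => i) j
      (fun i => (X.factor i).isCMType) hj f hf c hc I (right_ne_zero_of_mul hI) σ
    exact h2

theorem cupFun_sum_left {ι : Type*} (s : Finset ι) (F : ι → (κ → X.H1) → L)
    (G : (κ' → X.H1) → L) : cupFun (∑ i ∈ s, F i) G = ∑ i ∈ s, cupFun (F i) G := by
  classical
  induction s using Finset.induction_on with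
  | empty =>
    funext v
    simp [cupFun]
  | insert a s ha ih =>
    rw [Finset.sum_insert ha, Finset.sum_insert ha, ← ih]
    funext v
    simp only [cupFun, Pi.add_apply, mul_add, add_mul, Finset.sum_add_distrib]

theorem cupFun_smul_left (c : L) (F : (κ → X.H1) → L) (G : (κ' → X.H1) → L) :
    cupFun (c • F) G = c • cupFun F G := by
  funext v
  simp only [cupFun, Pi.smul_apply, smul_eq_mul, Finset.mul_sum]
  exact Finset.sum_congr rfl fun σ _ => by ring

theorem cupFun_sum_right {ι : Type*} (s : Finset ι) (F : (κ → X.H1) → L)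
    (G : ι → (κ' → X.H1) → L) : cupFun F (∑ i ∈ s, G i) = ∑ i ∈ s, cupFun F (G i) := by
  classical
  induction s using Finset.induction_on with
  | empty =>
    funext v
    simp [cupFun]
  | insert a s ha ih =>
    rw [Finset.sum_insert ha, Finset.sum_insert ha, ← ih]
    funext v
    simp only [cupFun, Pi.add_apply, mul_add, Finset.sum_add_distrib]

theorem cupFun_smul_right (c : L) (F : (κ → X.H1) → L) (G : (κ' → X.H1) → L) :
    cupFun F (c • G) = c • cupFun F G := by
  funext v
  simp only [cupFun, Pi.smul_apply, smul_eq_mul, Finset.mul_sum]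
  exact Finset.sum_congr rfl fun σ _ => by ring

/-- Multiplication by an element of the algebra of the homology. -/
theorem ev_mul (a w : X.H1) (x : Wt X L) : ev (a * w) x = ev a x * ev w x := map_mul x.2 _ _

theorem mono_mul (a : X.H1) (I : κ → Wt X L) (v : κ → X.H1) :
    mono I (fun k => a * v k) = (∏ k, ev a (I k)) * mono I v := by
  rw [mono_apply, mono_apply, Finset.mul_sum]
  refine Finset.sum_congr rfl fun σ _ => ?_
  simp only [ev_mul]
  rw [Finset.prod_mul_distrib]
  ring

theorem mono_ne_inj (I : κ → Wt X L) (h : mono I ≠ 0) : Function.Injective I := by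
  intro a b hab
  by_contra hne
  apply h
  funext v
  rw [mono_eq_det]
  exact Matrix.det_zero_of_column_eq hne (fun k => by simp [hab])

/-- The number of weights. -/
theorem card_wt (j : L →+* ℂ)
    (hj : ∀ i, ∀ ψ : (X.factor i).E →+* ℂ, ∃ φ : (X.factor i).E →+* L, j.comp φ = ψ) :
    Fintype.card (Wt X L) = finrank ℚ X.H1 := by
  classical
  rw [Fintype.card_sigma, Module.finrank_pi_fintype]
  refine Finset.sum_congr rfl fun i _ => ?_
  exact card_emb j (hj i)

open Classical in
/-- The complement of a balanced family is balanced. -/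
theorem balanced_compl (j : L →+* ℂ) (I : κ → Wt X L) (J : κ' → Wt X L)
    (hbij : Function.Bijective (Sum.elim I J)) (hI : Balanced (fun k => St j (I k))) :
    Balanced (fun k => St j (J k)) := by
  intro σ
  have h1 : ∑ x : Wt X L, (if σ ∈ St j x then (1 : ℤ) else -1) = 0 := by
    rw [Fintype.sum_sigma]
    refine Finset.sum_eq_zero fun i _ => ?_
    have h2 : ∀ φ : (X.factor i).E →+* L, (σ ∈ St j (⟨i, φ⟩ : Wt X L) ↔
        j.comp (σ • φ) ∈ (X.factor i).Φ) := fun φ => Iff.rfl
    simp only [h2]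
    have hc : ∀ φ : (X.factor i).E →+* L, (j.comp (σ • cbar φ) ∈ (X.factor i).Φ ↔
        j.comp (σ • φ) ∉ (X.factor i).Φ) := by
      intro φ
      have h3 := (X.factor i).isCMType (j.comp (σ • φ))
      have h4 : j.comp (σ • cbar φ) = ComplexEmbedding.conjugate (j.comp (σ • φ)) :=
        comp_cbar j (σ • φ)
      rw [h4]
      rw [h3]
      tauto
    have hinv : ∑ φ : (X.factor i).E →+* L, (if j.comp (σ • φ) ∈ (X.factor i).Φ then (1 : ℤ) else -1) =
        ∑ φ : (X.factor i).E →+* L,
          (if j.comp (σ • cbar φ) ∈ (X.factor i).Φ then (1 : ℤ) else -1) := by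
      let e : ((X.factor i).E →+* L) ≃ ((X.factor i).E →+* L) :=
        { toFun := cbar
          invFun := cbar
          left_inv := cbar_cbar
          right_inv := cbar_cbar }
      exact (Equiv.sum_comp e _).symm
    have h6 : ∀ φ : (X.factor i).E →+* L,
        (if j.comp (σ • cbar φ) ∈ (X.factor i).Φ then (1 : ℤ) else -1) =
        - (if j.comp (σ • φ) ∈ (X.factor i).Φ then (1 : ℤ) else -1) := by
      intro φ
      by_cases h : j.comp (σ • φ) ∈ (X.factor i).Φ
      · rw [if_pos h, if_neg (by rw [hc]; exact not_not.2 h)]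
      · rw [if_neg h, if_pos ((hc φ).2 h)]
        norm_num
    rw [Finset.sum_congr rfl (fun φ _ => h6 φ), Finset.sum_neg_distrib] at hinv
    linarith
  have h2 : ∑ x : Wt X L, (if σ ∈ St j x then (1 : ℤ) else -1) =
      ∑ s : κ ⊕ κ', (if σ ∈ St j (Sum.elim I J s) then (1 : ℤ) else -1) :=
    (Equiv.sum_comp (Equiv.ofBijective _ hbij) _).symm
  rw [h1, Fintype.sum_sum_type] at h2
  have h3 : ∑ k, (if σ ∈ St j (I k) then (1 : ℤ) else -1) = 0 := hI σ
  have h4 : ∑ k, (if σ ∈ St j (Sum.elim I J (Sum.inl k)) then (1 : ℤ) else -1) = 0 := h3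
  rw [h4, zero_add] at h2
  exact h2.symm

end

end Pool.Agent.W547.DP
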