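import Pool.Agent.W547.DP.DMain

/-!
# Extension of rational forms to the Tate module
-/

set_option linter.unusedSectionVars false
set_option linter.unusedVariables false

namespace Pool.Agent.W547.DP

open NumberField Pool.Agent.H204R3.CM Pool.Agent.W547.KB Pool.Agent.W547.LD Pool.Agent.W530.NF
open Equiv Module Pool.Agent.W547.HR

noncomputable section

variable {X : CMAV} {K V : Type} [Field K] [CharZero K] [AddCommGroup V] [Module K V]

theorem ι_sum (C : Comparison X K V) {N : ℕ} (b : Basis (Fin N) ℚ X.H1) (w : X.H1) :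
    C.ι w = ∑ i, ((b.repr w i : ℚ) : K) • C.ι (b i) := by
  conv_lhs => rw [← b.sum_repr w]
  rw [map_sum]
  refine Finset.sum_congr rfl fun i _ => ?_
  let _ : Algebra ℚ K := DivisionRing.toRatAlgebra
  let _ : Module ℚ V := Module.compHom V (algebraMap ℚ K)
  rw [map_rat_smul C.ι]
  rfl

/-- A basis of the Tate module. -/
theorem exists_basis (C : Comparison X K V) : ∃ (N : ℕ) (b : Basis (Fin N) ℚ X.H1)
    (b' : Basis (Fin N) K V), (∀ i, b' i = C.ι (b i)) ∧
      ∀ (i : Fin N) (w : X.H1), b'.coord i (C.ι w) = ((b.coord i w : ℚ) : K) := by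
  classical
  let b := Module.finBasis ℚ X.H1
  have hspan : ⊤ ≤ Submodule.span K (Set.range fun i => C.ι (b i)) := by
    rw [← C.span_eq, Submodule.span_le]
    rintro _ ⟨w, rfl⟩
    rw [ι_sum C b w]
    exact Submodule.sum_mem _ fun i _ => Submodule.smul_mem _ _ (Submodule.subset_span ⟨i, rfl⟩)
  have hcard : Fintype.card (Fin (finrank ℚ X.H1)) = finrank K V := by
    rw [Fintype.card_fin, C.finrank_eq]
  let b' := basisOfTopLeSpanOfCardEqFinrank (fun i => C.ι (b i)) hspan hcard
  have hb' : ∀ i, b' i = C.ι (b i) := fun i => by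
    simp [b']
  refine ⟨_, b, b', hb', fun i w => ?_⟩
  rw [ι_sum C b w, map_sum]
  simp only [← hb', map_smul, Basis.coord_apply, Basis.repr_self, smul_eq_mul]
  rw [Finset.sum_eq_single i]
  · rw [Finsupp.single_eq_same, mul_one]
  · intro k _ hk
    rw [Finsupp.single_eq_of_ne (Ne.symm hk), mul_zero]
  · intro h
    exact (h (Finset.mem_univ i)).elim

/-- Expansion of a form in a basis. -/
theorem form_expand {κ : Type} [Fintype κ] [DecidableEq κ] {N : ℕ} (b : Basis (Fin N) ℚ X.H1)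
    (f : X.H1 [⋀^κ]→ₗ[ℚ] ℚ) (v : κ → X.H1) :
    ∑ I : κ → Fin N, f (fun k => b (I k)) *
      Matrix.det (Matrix.of fun k l => b.coord (I l) (v k)) = Fintype.card (Perm κ) * f v := by
  have h1 : ∀ u : κ → X.H1, f u = ∑ I : κ → Fin N, (∏ k, b.coord (I k) (u k)) *
      f (fun k => b (I k)) := by
    intro u
    have h3 : u = fun l => ∑ s, b.coord s (u l) • b s := by
      funext l
      exact (b.sum_repr (u l)).symm
    conv_lhs => rw [h3]
    change f.toMultilinearMap _ = _
    rw [MultilinearMap.map_sum]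
    refine Finset.sum_congr rfl fun r _ => ?_
    rw [MultilinearMap.map_smul_univ, smul_eq_mul]
    rfl
  have h2 : ∀ σ : Perm κ, f v = ((Perm.sign σ : ℤ) : ℚ) * ∑ I : κ → Fin N,
      (∏ k, b.coord (I k) (v (σ k))) * f (fun k => b (I k)) := by
    intro σ
    rw [← h1 (fun k => v (σ k))]
    have h3 : f (fun k => v (σ k)) = Perm.sign σ • f v := f.map_perm v σ
    rw [h3, Units.smul_def, zsmul_eq_mul, ← mul_assoc,
        ← Int.cast_mul, ← Units.val_mul, Int.units_mul_self, Units.val_one, Int.cast_one, one_mul]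
  have h3 : (Fintype.card (Perm κ) : ℚ) * f v = ∑ σ : Perm κ, ((Perm.sign σ : ℤ) : ℚ) *
      ∑ I : κ → Fin N, (∏ k, b.coord (I k) (v (σ k))) * f (fun k => b (I k)) := by
    rw [← Finset.sum_congr rfl (fun σ _ => h2 σ), Finset.sum_const, Finset.card_univ,
      nsmul_eq_mul]
  rw [h3]
  simp only [Finset.mul_sum]
  rw [Finset.sum_comm]
  refine Finset.sum_congr rfl fun I _ => ?_
  rw [Matrix.det_apply', Finset.mul_sum]
  refine Finset.sum_congr rfl fun σ _ => ?_
  simp only [Matrix.of_apply]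
  ring

/-- Every rational form extends to the Tate module. -/
theorem exists_ext (C : Comparison X K V) {κ : Type} [Finite κ] (f : X.H1 [⋀^κ]→ₗ[ℚ] ℚ) :
    ∃ z : V [⋀^κ]→ₗ[K] K, ∀ v : κ → X.H1, z (fun k => C.ι (v k)) = (f v : K) := by
  classical
  have := Fintype.ofFinite κ
  obtain ⟨N, b, b', hb, hc⟩ := exists_basis C
  let ζ : (κ → Fin N) → V [⋀^κ]→ₗ[K] K := fun I =>
    Matrix.detRowAlternating.compLinearMap (LinearMap.pi (fun l => b'.coord (I l)))
  have hζ : ∀ (I : κ → Fin N) (v : κ → X.H1), ζ I (fun k => C.ι (v k)) =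
      ((Matrix.det (Matrix.of fun k l => b.coord (I l) (v k)) : ℚ) : K) := by
    intro I v
    have h1 : ζ I (fun k => C.ι (v k)) =
        Matrix.det (Matrix.of fun k l => b'.coord (I l) (C.ι (v k))) := rfl
    rw [h1]
    simp only [hc]
    rw [Matrix.det_apply', Matrix.det_apply']
    push_cast
    rfl
  have hne : (Fintype.card (Perm κ) : K) ≠ 0 := Nat.cast_ne_zero.2 Fintype.card_ne_zero
  refine ⟨(Fintype.card (Perm κ) : K)⁻¹ • ∑ I, ((f (fun k => b (I k)) : ℚ) : K) • ζ I,
    fun v => ?_⟩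
  let E : (V [⋀^κ]→ₗ[K] K) →+ K :=
    { toFun := fun f => f (fun k => C.ι (v k)), map_zero' := rfl, map_add' := fun _ _ => rfl }
  have h0 : (∑ I, ((f (fun k => b (I k)) : ℚ) : K) • ζ I) (fun k => C.ι (v k)) =
      ∑ I, (((f (fun k => b (I k)) : ℚ) : K) • ζ I) (fun k => C.ι (v k)) := map_sum E _ _
  rw [AlternatingMap.smul_apply, h0, smul_eq_mul]
  have h1 : ∑ I, (((f (fun k => b (I k)) : ℚ) : K) • ζ I) (fun k => C.ι (v k)) =
      (((Fintype.card (Perm κ) : ℚ) * f v : ℚ) : K) := by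
    rw [← form_expand b f v, Rat.cast_sum]
    refine Finset.sum_congr rfl fun I _ => ?_
    rw [AlternatingMap.smul_apply, hζ, smul_eq_mul, Rat.cast_mul]
  rw [h1]
  push_cast
  rw [← mul_assoc, inv_mul_cancel₀ hne, one_mul]

end

end Pool.Agent.W547.DP
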