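import Pool.Agent.W547.HR.Defs

/-!
# Systems of classes with the properties of the classes of algebraic cycles
-/

namespace Pool.Agent.W547.DP

open Module Pool.Agent.W547.KB Pool.Agent.W547.LD Pool.Agent.W530.NF Pool.Agent.W547.HR

/-- `z ∈ H^{2n}(A₀, K)`, an alternating form in `2 n` variables on the rational Tate module `V` of
`A₀`, is a Tate class over the field with `Q` elements with Frobenius endomorphism `F`. -/
def IsTateForm {K V : Type} [Field K] [AddCommGroup V] [Module K V] (F : V →ₗ[K] V) (Q : ℕ) {n : ℕ}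
    (z : V [⋀^Fin (2 * n)]→ₗ[K] K) : Prop :=
  ∀ v, z (fun k => F (v k)) = (Q : K) ^ n * z v

/-- The spaces `A n ⊆ H^{2n}(A₀, K)` have the following properties of the spaces of the rational
linear combinations of the classes of algebraic cycles of codimension `n` on the abelian variety `A₀`
over the field with `Q` elements, with Frobenius endomorphism `F`:

* they consist of Tate classes;
* they contain the Tate classes which belong, on the lift `X` of `A₀`, to the ring generated by the
  classes of divisors and by the pull-backs of the Weil classes of imaginary quadratic fields on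
  abelian fourfolds and sixfolds of CM type of split Weil type (Lefschetz, Markman);
* intersection numbers are rational. -/
structure IsCycleSystem {X : CMAV} {K V : Type} [Field K] [CharZero K] [AddCommGroup V] [Module K V]
    (C : Comparison X K V) (F : V →ₗ[K] V) (Q : ℕ)
    (A : ∀ n : ℕ, Submodule ℚ (V [⋀^Fin (2 * n)]→ₗ[K] K)) : Prop where
  tate : ∀ n, ∀ z ∈ A n, IsTateForm F Q z
  ring : ∀ n (z : V [⋀^Fin (2 * n)]→ₗ[K] K) (f : X.H1 [⋀^Fin (2 * n)]→ₗ[ℚ] ℚ), DWRing X _ f →
    (∀ v : Fin (2 * n) → X.H1, onH1 C z v = ((f v : ℚ) : K)) → IsTateForm F Q z → z ∈ A n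
  rational : ∀ n m, 2 * (n + m) = finrank ℚ X.H1 → ∀ z ∈ A n, ∀ w ∈ A m,
    ∀ v : Fin (2 * n) ⊕ Fin (2 * m) → X.H1, ∃ a : ℚ, altSum (times (onH1 C z) (onH1 C w)) v = a

/-- The class `z ∈ A n` is numerically trivial: its intersection number with every class in `A m`,
`n + m = dim A₀`, is zero. -/
def IsNumericallyTrivial {X : CMAV} {K V : Type} [Field K] [CharZero K] [AddCommGroup V]
    [Module K V] (C : Comparison X K V) (A : ∀ n : ℕ, Submodule ℚ (V [⋀^Fin (2 * n)]→ₗ[K] K)) {n : ℕ}
    (z : V [⋀^Fin (2 * n)]→ₗ[K] K) : Prop :=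
  ∀ m, 2 * (n + m) = finrank ℚ X.H1 → ∀ w ∈ A m,
    ∀ v : Fin (2 * n) ⊕ Fin (2 * m) → X.H1, altSum (times (onH1 C z) (onH1 C w)) v = 0

/-- The Frobenius endomorphism `π = (π i)` of `A₀` over the field with `q` elements is given by Weil
numbers: all complex absolute values of `π i` are equal to `√q`. -/
def IsWeilNumber (q : ℕ) (X : CMAV) (π : X.H1) : Prop :=
  ∀ i, ∀ φ : (X.factor i).E →+* ℂ, ‖φ (π i)‖ ^ 2 = (q : ℝ)

end Pool.Agent.W547.DP
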