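import Pool.Agent.W547.DP.PFinal

/-!
# The pole formula for ordinary abelian varieties: powers in dimension at most five, complex
multiplication by fields of degree at most fourteen, small simple factors
-/

set_option linter.unusedSectionVars false
set_option linter.unusedVariables false

namespace Pool.Agent.W547.DP

open NumberField Pool.Agent.H204R3.CM Pool.Agent.W547.KB Pool.Agent.W547.LD Pool.Agent.W530.NF
open Equiv Module Pool.Agent.W547.HR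

noncomputable section

theorem pole_five (p : ℕ) [Fact p.Prime] (a : ℕ) (ha : 0 < a) (ν : PadicAlgCl p ≃+* ℂ) (Y : CMAV)
    (hY : finrank ℚ Y.H1 ≤ 10) (n : ℕ) (π : (powerX Y n).H1)
    (hπ : LN.IsCanonicalLift p a ν (powerX Y n) π) (hw : IsWeilNumber (p ^ a) (powerX Y n) π)
    {V : Type} [AddCommGroup V] [Module ℂ V] (C : Comparison (powerX Y n) ℂ V) (F : V →ₗ[ℂ] V)
    (hF : LN.IsFrobeniusMap C π F) (s : ℕ) (hs : 0 < s) :
    (∃ A, IsCycleSystem C (F ^ s) ((p ^ a) ^ s) A) ∧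
    ∀ A : ∀ r : ℕ, Submodule ℚ (V [⋀^Fin (2 * r)]→ₗ[ℂ] ℂ),
      IsCycleSystem C (F ^ s) ((p ^ a) ^ s) A → ∀ r : ℕ,
        (∀ z ∈ A r, IsNumericallyTrivial C A z → z = 0) ∧
        meromorphicOrderAt (Pool.Agent.H868R3.TwoOdd.zeta (((p ^ a) ^ s : ℕ) : ℝ) (F ^ s)) (r : ℂ) =
          ((-(finrank ℚ (A r) : ℤ) : ℤ) : WithTop ℤ) :=
  pole (powerX Y n) (fun f hf => ring_five Y hY n f hf) p a ha ν π hπ hw C F hF s hs

theorem pole_seven (p : ℕ) [Fact p.Prime] (a : ℕ) (ha : 0 < a) (ν : PadicAlgCl p ≃+* ℂ)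
    (A : CMPair) (hA : finrank ℚ A.E ≤ 14) (X : CMAV) (hX : ∀ i, X.factor i = A) (π : X.H1)
    (hπ : LN.IsCanonicalLift p a ν X π) (hw : IsWeilNumber (p ^ a) X π)
    {V : Type} [AddCommGroup V] [Module ℂ V] (C : Comparison X ℂ V) (F : V →ₗ[ℂ] V)
    (hF : LN.IsFrobeniusMap C π F) (s : ℕ) (hs : 0 < s) :
    (∃ A, IsCycleSystem C (F ^ s) ((p ^ a) ^ s) A) ∧
    ∀ A : ∀ r : ℕ, Submodule ℚ (V [⋀^Fin (2 * r)]→ₗ[ℂ] ℂ),
      IsCycleSystem C (F ^ s) ((p ^ a) ^ s) A → ∀ r : ℕ,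
        (∀ z ∈ A r, IsNumericallyTrivial C A z → z = 0) ∧
        meromorphicOrderAt (Pool.Agent.H868R3.TwoOdd.zeta (((p ^ a) ^ s : ℕ) : ℝ) (F ^ s)) (r : ℂ) =
          ((-(finrank ℚ (A r) : ℤ) : ℤ) : WithTop ℤ) :=
  pole X (fun f hf => TM.ring_of_hodge_copies A hA X hX f hf) p a ha ν π hπ hw C F hF s hs

/-- The rank of the group of cycles and the dimension of the space of Tate classes. -/
theorem rank_small (p : ℕ) [Fact p.Prime] (a : ℕ) (ha : 0 < a) (ν : PadicAlgCl p ≃+* ℂ)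
    (X : CMAV) (hX : LN.SmallFactors X) (π : X.H1) (hπ : LN.IsCanonicalLift p a ν X π)
    (hw : IsWeilNumber (p ^ a) X π) {K V : Type} [Field K] [CharZero K] [AddCommGroup V]
    [Module K V] (C : Comparison X K V) (F : V →ₗ[K] V) (hF : LN.IsFrobeniusMap C π F) (s : ℕ)
    (hs : 0 < s) :
    (∃ A, IsCycleSystem C (F ^ s) ((p ^ a) ^ s) A) ∧
    ∀ A : ∀ r : ℕ, Submodule ℚ (V [⋀^Fin (2 * r)]→ₗ[K] K),
      IsCycleSystem C (F ^ s) ((p ^ a) ^ s) A → ∀ r : ℕ,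
        (∀ z ∈ A r, IsNumericallyTrivial C A z → z = 0) ∧
        finrank ℚ (A r) = finrank K (FormEig (F ^ s) ((((p ^ a) ^ s : ℕ) : K) ^ r)
          (Fin (2 * r))) := by
  have h := good_ordinary X (fun f hf => LN.ring_small X hX f hf) p a ha ν π hπ hw C F hF s hs
  refine ⟨exists_system h, fun A hA r => ⟨fun z hz hn => zero_of_trivial h hA hz hn, ?_⟩⟩
  have h1 : ((((p ^ a) ^ s : ℕ) : K)) ^ r = (((((p ^ a) ^ s : ℕ) : ℚ) ^ r : ℚ) : K) := by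
    push_cast
    rfl
  rw [h1, finrank_eig C (F ^ s) (π ^ s) h.apply_eq, ← finrank_system h hA]

theorem pole_small (p : ℕ) [Fact p.Prime] (a : ℕ) (ha : 0 < a) (ν : PadicAlgCl p ≃+* ℂ)
    (X : CMAV) (hX : LN.SmallFactors X) (π : X.H1) (hπ : LN.IsCanonicalLift p a ν X π)
    (hw : IsWeilNumber (p ^ a) X π) {V : Type} [AddCommGroup V] [Module ℂ V]
    (C : Comparison X ℂ V) (F : V →ₗ[ℂ] V) (hF : LN.IsFrobeniusMap C π F) (s : ℕ) (hs : 0 < s) :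
    (∃ A, IsCycleSystem C (F ^ s) ((p ^ a) ^ s) A) ∧
    ∀ A : ∀ r : ℕ, Submodule ℚ (V [⋀^Fin (2 * r)]→ₗ[ℂ] ℂ),
      IsCycleSystem C (F ^ s) ((p ^ a) ^ s) A → ∀ r : ℕ,
        (∀ z ∈ A r, IsNumericallyTrivial C A z → z = 0) ∧
        meromorphicOrderAt (Pool.Agent.H868R3.TwoOdd.zeta (((p ^ a) ^ s : ℕ) : ℝ) (F ^ s)) (r : ℂ) =
          ((-(finrank ℚ (A r) : ℤ) : ℤ) : WithTop ℤ) :=
  pole X (fun f hf => LN.ring_small X hX f hf) p a ha ν π hπ hw C F hF s hs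

end

end Pool.Agent.W547.DP
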