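import Pool.Agent.W547.DP.PMain

/-!
# The pole formula for ordinary abelian varieties: the families
-/

set_option linter.unusedSectionVars false
set_option linter.unusedVariables false

namespace Pool.Agent.W547.DP

open NumberField Pool.Agent.H204R3.CM Pool.Agent.W547.KB Pool.Agent.W547.LD Pool.Agent.W530.NF
open Equiv Module Pool.Agent.W547.HR

noncomputable section

/-- There is a cycle system. -/
theorem exists_system {X : CMAV} {K V : Type} [Field K] [CharZero K] [AddCommGroup V] [Module K V]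
    {C : Comparison X K V} {F : V →ₗ[K] V} {a : X.H1} {Q : ℕ} (h : Good X C F a Q) :
    ∃ A : ∀ n : ℕ, Submodule ℚ (V [⋀^Fin (2 * n)]→ₗ[K] K), IsCycleSystem C F Q A := by
  refine ⟨fun n =>
    { carrier := {z | IsTateForm F Q z ∧ ∃ f : X.H1 [⋀^Fin (2 * n)]→ₗ[ℚ] ℚ,
        ∀ v : Fin (2 * n) → X.H1, onH1 C z v = ((f v : ℚ) : K)}
      zero_mem' := ⟨fun v => by simp, 0, fun v => by simp [onH1]⟩
      add_mem' := fun {z w} hz hw => ⟨fun v => by
        rw [AlternatingMap.add_apply, AlternatingMap.add_apply, hz.1 v, hw.1 v, mul_add], by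
        obtain ⟨f, hf⟩ := hz.2
        obtain ⟨g, hg⟩ := hw.2
        refine ⟨f + g, fun v => ?_⟩
        change onH1 C z v + onH1 C w v = _
        rw [hf, hg, AlternatingMap.add_apply]
        push_cast
        rfl⟩
      smul_mem' := fun c z hz => ⟨fun v => by
        change c • z (fun k => F (v k)) = _ * (c • z v)
        rw [hz.1 v, Rat.smul_def, Rat.smul_def]
        ring, by
        obtain ⟨f, hf⟩ := hz.2
        refine ⟨c • f, fun v => ?_⟩
        change c • onH1 C z v = _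
        rw [hf, AlternatingMap.smul_apply, Rat.smul_def, smul_eq_mul]
        push_cast
        rfl⟩ }, ?_⟩
  constructor
  · intro n z hz
    exact hz.1
  · intro n z f hf hzf ht
    exact ⟨ht, f, hzf⟩
  · rintro n m hnm z ⟨-, f, hf⟩ w ⟨-, g, hg⟩ v
    refine ⟨altSum (times (fun u => f u) (fun u => g u)) v, ?_⟩
    unfold altSum times
    rw [Rat.cast_sum]
    refine Finset.sum_congr rfl fun σ _ => ?_
    rw [hf, hg]
    push_cast
    rfl

/-- The order of the pole of the zeta function. -/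
theorem zeta_order_system {X : CMAV} {V : Type} [AddCommGroup V] [Module ℂ V]
    {C : Comparison X ℂ V} {F : V →ₗ[ℂ] V} {a : X.H1} {Q : ℕ} (h : Good X C F a Q) (hQ : 1 < Q)
    {A : ∀ n : ℕ, Submodule ℚ (V [⋀^Fin (2 * n)]→ₗ[ℂ] ℂ)} (hA : IsCycleSystem C F Q A) (n : ℕ) :
    meromorphicOrderAt (Pool.Agent.H868R3.TwoOdd.zeta (Q : ℝ) F) (n : ℂ) =
      ((-(finrank ℚ (A n) : ℤ) : ℤ) : WithTop ℤ) := by
  obtain ⟨N, b, b', hb, hc⟩ := exists_basis C
  have hfin : FiniteDimensional ℂ V := Module.Finite.of_basis b'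
  rw [zeta_order_eig (Q : ℝ) (by exact_mod_cast hQ) F
    {μ : ℂ | ∃ i, ∃ φ : (X.factor i).E →+* ℂ, φ (a i) = μ} (by
      rintro _ ⟨i, φ, rfl⟩
      exact h.weil i φ) (span_eigen C F a h.apply_eq) n]
  have h1 : (((Q : ℝ) : ℂ)) ^ n = ((((Q : ℚ) ^ n : ℚ)) : ℂ) := by push_cast; rfl
  rw [h1, ← finrank_formEig, finrank_eig C F a h.apply_eq, ← finrank_system h hA]

theorem good_ordinary (X : CMAV)
    (hring : ∀ {κ : Type} [Finite κ] (f : X.H1 [⋀^κ]→ₗ[ℚ] ℚ), IsHodge X.per f → DWRing X κ f)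
    (p : ℕ) [Fact p.Prime] (a : ℕ) (ha : 0 < a) (ν : PadicAlgCl p ≃+* ℂ) (π : X.H1)
    (hπ : LN.IsCanonicalLift p a ν X π) (hw : IsWeilNumber (p ^ a) X π) {K V : Type} [Field K]
    [CharZero K] [AddCommGroup V] [Module K V] (C : Comparison X K V) (F : V →ₗ[K] V)
    (hF : LN.IsFrobeniusMap C π F) (s : ℕ) (hs : 0 < s) :
    Good X C (F ^ s) (π ^ s) ((p ^ a) ^ s) := by
  have hp : p.Prime := Fact.out
  have hFs : ∀ (N : ℕ) (x : X.H1), (F ^ N) (C.ι x) = C.ι (π ^ N * x) := by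
    intro N
    induction N with
    | zero =>
      intro x
      simp
    | succ N ih =>
      intro x
      rw [pow_succ', Module.End.mul_apply, ih, pow_succ', mul_assoc]
      exact hF _
  refine ⟨pow_pos (pow_pos hp.pos a) s, hFs s, ?_, ?_, hring⟩
  · intro i φ
    have h1 := hw i φ
    rw [Pi.pow_apply, map_pow, norm_pow, ← pow_mul, mul_comm, pow_mul, h1]
    push_cast
    rfl
  · intro n z hz
    have hST : ShimuraTaniyama X (TF.absC p ν) (p ^ a) π := by
      constructor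
      · intro i φ hφ
        rw [TF.absC_cast]
        exact hπ.slope_one i φ hφ
      · intro i φ hφ
        exact hπ.slope_zero i φ hφ
    have hw : TF.absC p ν ((p ^ a : ℕ) : ℂ) < 1 := by
      rw [TF.absC_cast, norm_pow, TF.norm_p]
      refine pow_lt_one₀ (by positivity) ?_ ha.ne'
      rw [inv_lt_one₀ (by exact_mod_cast hp.pos)]
      exact_mod_cast hp.one_lt
    refine LN.generated_of_ring X hring C (TF.absC p ν) (p ^ a)
      (pow_pos hp.pos a).ne' hw π hST s n hs.ne' z fun v => ?_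
    have h1 := hz (fun k => C.ι (v k))
    simp only [hFs s] at h1
    rw [h1]
    push_cast
    rw [← pow_mul, mul_comm s n]

/-- The pole formula, for all varieties such that the Hodge ring of the canonical lift is
generated. -/
theorem pole (X : CMAV)
    (hring : ∀ {κ : Type} [Finite κ] (f : X.H1 [⋀^κ]→ₗ[ℚ] ℚ), IsHodge X.per f → DWRing X κ f)
    (p : ℕ) [Fact p.Prime] (a : ℕ) (ha : 0 < a) (ν : PadicAlgCl p ≃+* ℂ) (π : X.H1)
    (hπ : LN.IsCanonicalLift p a ν X π) (hw : IsWeilNumber (p ^ a) X π) {V : Type}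
    [AddCommGroup V] [Module ℂ V] (C : Comparison X ℂ V) (F : V →ₗ[ℂ] V)
    (hF : LN.IsFrobeniusMap C π F) (s : ℕ) (hs : 0 < s) :
    (∃ A, IsCycleSystem C (F ^ s) ((p ^ a) ^ s) A) ∧
    ∀ A : ∀ n : ℕ, Submodule ℚ (V [⋀^Fin (2 * n)]→ₗ[ℂ] ℂ),
      IsCycleSystem C (F ^ s) ((p ^ a) ^ s) A → ∀ n : ℕ,
        (∀ z ∈ A n, IsNumericallyTrivial C A z → z = 0) ∧
        meromorphicOrderAt (Pool.Agent.H868R3.TwoOdd.zeta (((p ^ a) ^ s : ℕ) : ℝ) (F ^ s)) (n : ℂ) =
          ((-(finrank ℚ (A n) : ℤ) : ℤ) : WithTop ℤ) := by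
  have hp : p.Prime := Fact.out
  have h := good_ordinary X hring p a ha ν π hπ hw C F hF s hs
  refine ⟨exists_system h, fun A hA n => ⟨fun z hz hn => zero_of_trivial h hA hz hn, ?_⟩⟩
  exact zeta_order_system h (Nat.one_lt_pow hs.ne' (Nat.one_lt_pow ha.ne' hp.one_lt)) hA n

end

end Pool.Agent.W547.DP
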