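import Pool.Agent.W547.DP.PFamilies

/-!
# The pole of the L-function of the cohomology in even degree over a finite field
-/

set_option linter.unusedSectionVars false
set_option linter.unusedVariables false

namespace Pool.Agent.W547.DP

open NumberField Pool.Agent.H204R3.CM Pool.Agent.W547.KB Pool.Agent.W547.LD Pool.Agent.W530.NF
open Equiv Module Pool.Agent.W547.HR Filter Topology

noncomputable section

/-- The L-function of the cohomology of degree `2 i` of an abelian variety over the field with `Q`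
elements with Frobenius endomorphism `F` of the Tate module `V` (the base is the spectrum of the
field with `Q` elements, of dimension zero): `det (1 - Q ^ (-z) F | ⋀ ^ (2 i) V) ^ (-1)`. -/
def Phi {V : Type} [AddCommGroup V] [Module ℂ V] (Q : ℕ) (F : V →ₗ[ℂ] V) (i : ℕ) (z : ℂ) : ℂ :=
  (LinearMap.det (1 - (Q : ℂ) ^ (-z) • exteriorPower.map (2 * i) F))⁻¹

/-- For all systems of subspaces with the properties of the spaces of classes of cycles: the rank is
the dimension of the space of Tate classes, and numerically trivial classes are zero. (There are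
such systems.) -/
def RankEqual {X : CMAV} {K V : Type} [Field K] [CharZero K] [AddCommGroup V] [Module K V]
    (C : Comparison X K V) (F : V →ₗ[K] V) (Q : ℕ) : Prop :=
  (∃ A, IsCycleSystem C F Q A) ∧
    ∀ A : ∀ r : ℕ, Submodule ℚ (V [⋀^Fin (2 * r)]→ₗ[K] K), IsCycleSystem C F Q A → ∀ r : ℕ,
      (∀ z ∈ A r, IsNumericallyTrivial C A z → z = 0) ∧
        finrank ℚ (A r) = finrank K (FormEig F ((Q : K) ^ r) (Fin (2 * r)))

/-- For all systems of subspaces with the properties of the spaces of classes of cycles: the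
L-function of the cohomology of degree `2 r` has at `r` a pole of order equal to the rank. -/
def HasPole {X : CMAV} {V : Type} [AddCommGroup V] [Module ℂ V]
    (C : Comparison X ℂ V) (F : V →ₗ[ℂ] V) (Q : ℕ) : Prop :=
  ∀ A : ∀ r : ℕ, Submodule ℚ (V [⋀^Fin (2 * r)]→ₗ[ℂ] ℂ), IsCycleSystem C F Q A → ∀ r : ℕ,
    ∃ c : ℂ, c ≠ 0 ∧ Tendsto (fun t : ℝ => (t : ℂ) ^ (finrank ℚ (A r)) * Phi Q F r (t + r))
      (𝓝[>] 0) (𝓝 c)

theorem tendsto_of_order (f : ℂ → ℂ) (x : ℂ) (r : ℕ) (hf : MeromorphicAt f x)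
    (h : meromorphicOrderAt f x = ((r : ℤ) : WithTop ℤ)) :
    ∃ c : ℂ, c ≠ 0 ∧ Tendsto (fun s : ℝ => (s : ℂ) ^ r * (f (s + x))⁻¹) (𝓝[>] 0) (𝓝 c) := by
  obtain ⟨g, hg, hg0, hfg⟩ := (meromorphicOrderAt_eq_int_iff hf).1 h
  refine ⟨(g x)⁻¹, inv_ne_zero hg0, ?_⟩
  have hcont : Tendsto (fun s : ℝ => (s : ℂ) + x) (𝓝[>] 0) (𝓝[≠] x) := by
    rw [tendsto_nhdsWithin_iff]
    constructor
    · have h1 : Continuous (fun s : ℝ => (s : ℂ) + x) := by fun_prop
      have h2 := h1.tendsto 0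
      simp only [Complex.ofReal_zero, zero_add] at h2
      exact h2.mono_left nhdsWithin_le_nhds
    · filter_upwards [self_mem_nhdsWithin] with s hs
      have h1 : s ≠ 0 := ne_of_gt hs
      simpa using h1
  have h2 : Tendsto (fun s : ℝ => (g (s + x))⁻¹) (𝓝[>] 0) (𝓝 (g x)⁻¹) := by
    have h3 := (hg.continuousAt.tendsto.mono_left (nhdsWithin_le_nhds (s := {x}ᶜ))).comp hcont
    exact h3.inv₀ hg0
  refine h2.congr' ?_
  filter_upwards [hcont.eventually hfg, self_mem_nhdsWithin] with s hs hs0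
  have h1 : (s : ℂ) ≠ 0 := by exact_mod_cast (ne_of_gt hs0)
  rw [hs, add_sub_cancel_right, zpow_natCast, smul_eq_mul, mul_inv, ← mul_assoc,
    mul_inv_cancel₀ (pow_ne_zero _ h1), one_mul]

open Pool.Agent.H868R3.TwoOdd in
theorem phi_limit {X : CMAV} {V : Type} [AddCommGroup V] [Module ℂ V]
    {C : Comparison X ℂ V} {F : V →ₗ[ℂ] V} {a : X.H1} {Q : ℕ} (h : Good X C F a Q) (hQ : 1 < Q)
    {A : ∀ n : ℕ, Submodule ℚ (V [⋀^Fin (2 * n)]→ₗ[ℂ] ℂ)} (hA : IsCycleSystem C F Q A) (i : ℕ) :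
    ∃ c : ℂ, c ≠ 0 ∧ Tendsto (fun s : ℝ => (s : ℂ) ^ (finrank ℚ (A i)) * Phi Q F i (s + i))
      (𝓝[>] 0) (𝓝 c) := by
  obtain ⟨N, b, b', hb, hc⟩ := exists_basis C
  have hfin : FiniteDimensional ℂ V := Module.Finite.of_basis b'
  obtain ⟨ι, _, B, α, hB, hα⟩ := exists_extBasis F
    {μ : ℂ | ∃ i, ∃ φ : (X.factor i).E →+* ℂ, φ (a i) = μ} (span_eigen C F a h.apply_eq) (2 * i)
  obtain ⟨h1, h2⟩ := order_det (Q : ℝ) (by exact_mod_cast hQ) i B _ α hB
  have h3 : finrank ℂ (Module.End.eigenspace (exteriorPower.map (2 * i) F)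
      ((((Q : ℝ) : ℂ)) ^ i)) = finrank ℚ (A i) := by
    have h1 : (((Q : ℝ) : ℂ)) ^ i = ((((Q : ℚ) ^ i : ℚ)) : ℂ) := by push_cast; rfl
    rw [h1, ← finrank_formEig, finrank_eig C F a h.apply_eq, ← finrank_system h hA]
  rw [h3] at h2
  obtain ⟨c, hc0, hc⟩ := tendsto_of_order _ (i : ℂ) _ h1 h2
  refine ⟨c, hc0, ?_⟩
  refine hc.congr fun s => ?_
  unfold Phi
  simp only [Complex.ofReal_natCast]

theorem small_both (p : ℕ) [Fact p.Prime] (a : ℕ) (ha : 0 < a) (ν : PadicAlgCl p ≃+* ℂ)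
    (X : CMAV) (hX : LN.SmallFactors X) (π : X.H1) (hπ : LN.IsCanonicalLift p a ν X π)
    (hw : IsWeilNumber (p ^ a) X π) {V : Type} [AddCommGroup V] [Module ℂ V]
    (C : Comparison X ℂ V) (F : V →ₗ[ℂ] V) (hF : LN.IsFrobeniusMap C π F) (s : ℕ) (hs : 0 < s)
    (A : ∀ r : ℕ, Submodule ℚ (V [⋀^Fin (2 * r)]→ₗ[ℂ] ℂ))
    (hA : IsCycleSystem C (F ^ s) ((p ^ a) ^ s) A) (r : ℕ) :
    ∃ c : ℂ, c ≠ 0 ∧ Tendsto (fun t : ℝ => (t : ℂ) ^ (finrank ℚ (A r)) *
      Phi ((p ^ a) ^ s) (F ^ s) r (t + r)) (𝓝[>] 0) (𝓝 c) := by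
  have hp : p.Prime := Fact.out
  have h := good_ordinary X (fun f hf => LN.ring_small X hX f hf) p a ha ν π hπ hw C F hF s hs
  exact phi_limit h (Nat.one_lt_pow hs.ne' (Nat.one_lt_pow ha.ne' hp.one_lt)) hA r

end

end Pool.Agent.W547.DP
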