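import Pool.Agent.W547.DP.Count
import Pool.Agent.H868R3.PoleExt

/-!
# The order of the zeta function of an abelian variety
-/

set_option linter.unusedSectionVars false
set_option linter.unusedVariables false

namespace Pool.Agent.W547.DP

open NumberField Pool.Agent.H204R3.CM Pool.Agent.W547.KB Pool.Agent.W547.LD Pool.Agent.W530.NF
open Equiv Module Pool.Agent.W547.HR

noncomputable section

open Pool.Agent.H868R3.TwoOdd in
theorem zeta_order_eig {V : Type} [AddCommGroup V] [Module ℂ V] [FiniteDimensional ℂ V] (q : ℝ)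
    (hq : 1 < q) (F : V →ₗ[ℂ] V) (E : Set ℂ) (hE : ∀ μ ∈ E, ‖μ‖ ^ 2 = q)
    (hF : Submodule.span ℂ {v : V | ∃ μ : ℂ, μ ∈ E ∧ F v = μ • v} = ⊤) (n : ℕ) :
    meromorphicOrderAt (zeta q F) (n : ℂ) =
      ((- (finrank ℂ (Module.End.eigenspace (exteriorPower.map (2 * n) F) ((q : ℂ) ^ n)) : ℤ) : ℤ) :
        WithTop ℤ) := by
  classical
  have hzero : ∀ j, j ≠ 2 * n →
      finrank ℂ (Module.End.eigenspace (exteriorPower.map j F) ((q : ℂ) ^ n)) = 0 := by
    intro j hj
    obtain ⟨ι, _, B, α, hB, hα⟩ := exists_extBasis F E hF j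
    rw [finrank_eigenspace B _ α hB, Nat.card_eq_zero]
    left
    refine ⟨fun ⟨i, hi⟩ => hj ?_⟩
    obtain ⟨m, hm1, hm2⟩ := hα i
    have h1 : (‖α i‖ ^ 2 : ℝ) = q ^ j := by
      rw [hm2, norm_prod, ← Finset.prod_pow, Finset.prod_congr rfl (fun l _ => hE _ (hm1 l)),
        Finset.prod_const, Finset.card_univ, Fintype.card_fin]
    rw [hi, norm_pow, Complex.norm_real, Real.norm_of_nonneg (by linarith), ← pow_mul] at h1
    have h2 : n * 2 = j := pow_right_injective₀ (by linarith : 0 < q) hq.ne' h1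
    omega
  have hdet : ∀ j : ℕ, MeromorphicAt (fun s : ℂ =>
      (LinearMap.det (1 - (q : ℂ) ^ (-s) • exteriorPower.map j F)) ^ ((-1 : ℤ) ^ (j + 1))) (n : ℂ) ∧
      meromorphicOrderAt (fun s : ℂ =>
      (LinearMap.det (1 - (q : ℂ) ^ (-s) • exteriorPower.map j F)) ^ ((-1 : ℤ) ^ (j + 1))) (n : ℂ) =
      (((-1 : ℤ) ^ (j + 1) * finrank ℂ
        (Module.End.eigenspace (exteriorPower.map j F) ((q : ℂ) ^ n)) : ℤ) : WithTop ℤ) := by
    intro j
    obtain ⟨ι, _, B, α, hB, hα⟩ := exists_extBasis F E hF j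
    obtain ⟨h1, h2⟩ := order_det q hq n B _ α hB
    refine ⟨h1.fun_zpow _, ?_⟩
    rw [fun_meromorphicOrderAt_zpow h1, h2]
    rfl
  unfold zeta
  change meromorphicOrderAt (fun s : ℂ => ∏ j ∈ Finset.range (finrank ℂ V + 1),
    (LinearMap.det (1 - (q : ℂ) ^ (-s) • exteriorPower.map j F)) ^ ((-1 : ℤ) ^ (j + 1)))
      (n : ℂ) = _
  rw [meromorphicOrderAt_fun_prod (fun j _ => (hdet j).1),
    Finset.sum_congr rfl (fun j _ => (hdet j).2), ← WithTop.coe_sum]
  congr 1
  by_cases hn : 2 * n ∈ Finset.range (finrank ℂ V + 1)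
  · rw [Finset.sum_eq_single_of_mem (2 * n) hn]
    · rw [pow_succ, pow_mul]
      simp
    · intro j _ hj
      rw [hzero j hj]
      simp
  · have h1 : finrank ℂ (Module.End.eigenspace (exteriorPower.map (2 * n) F) ((q : ℂ) ^ n)) = 0 := by
      have h2 : finrank ℂ (⋀[ℂ]^(2 * n) V) = 0 := by
        rw [exteriorPower.finrank_eq, Nat.choose_eq_zero_of_lt]
        rw [Finset.mem_range] at hn
        omega
      have h3 := Submodule.finrank_le
        (Module.End.eigenspace (exteriorPower.map (2 * n) F) ((q : ℂ) ^ n))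
      omega
    rw [h1, Finset.sum_eq_zero]
    · simp
    · intro j hj
      have hj2 : j ≠ 2 * n := fun h => hn (h ▸ hj)
      rw [hzero j hj2]
      simp

theorem card_wtC (X : CMAV) : Fintype.card (Wt X ℂ) = finrank ℚ X.H1 := by
  rw [Fintype.card_sigma, Module.finrank_pi_fintype]
  exact Finset.sum_congr rfl fun i _ => Embeddings.card _ _

/-- The eigenvectors of multiplication by `a` span. -/
theorem span_eigen {X : CMAV} {V : Type} [AddCommGroup V] [Module ℂ V] (C : Comparison X ℂ V)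
    (F : V →ₗ[ℂ] V) (a : X.H1) (hF : ∀ x, F (C.ι x) = C.ι (a * x)) :
    Submodule.span ℂ {v : V | ∃ μ : ℂ, μ ∈ {μ : ℂ | ∃ i, ∃ φ : (X.factor i).E →+* ℂ, φ (a i) = μ} ∧
      F v = μ • v} = ⊤ := by
  classical
  obtain ⟨N, b, b', hb, hc⟩ := exists_basis C
  let ch : X.H1 → (Wt X ℂ → ℂ) := fun w x => x.2 (w x.1)
  let e : V →ₗ[ℂ] (Wt X ℂ → ℂ) := b'.constr ℂ (fun i => ch (b i))
  have he : ∀ w, e (C.ι w) = ch w := by
    intro w
    rw [ι_sum C b w, map_sum]
    simp only [map_smul, ← hb]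
    have h1 : ∀ i, e (b' i) = ch (b i) := fun i => b'.constr_basis ℂ _ i
    simp only [h1]
    have h2 : w = ∑ i, b.repr w i • b i := (b.sum_repr w).symm
    funext x
    conv_rhs => rw [h2]
    rw [Finset.sum_apply]
    change _ = x.2 ((∑ i, b.repr w i • b i) x.1)
    rw [Finset.sum_apply, map_sum]
    refine Finset.sum_congr rfl fun i _ => ?_
    rw [Pi.smul_apply, smul_eq_mul]
    change _ = x.2 (b.repr w i • (b i x.1))
    rw [Rat.smul_def, map_mul, map_ratCast]
  have hsurj : Function.Surjective e := by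
    rw [← LinearMap.range_eq_top, eq_top_iff]
    have h1 := span_chi (E := fun i : X.I => (X.factor i).E) (fun i : X.I => i)
    rw [← h1, Submodule.span_le]
    rintro _ ⟨w, rfl⟩
    exact ⟨C.ι w, he w⟩
  have hfin : FiniteDimensional ℂ V := Module.Finite.of_basis b'
  have hdim : finrank ℂ V = finrank ℂ (Wt X ℂ → ℂ) := by
    rw [C.finrank_eq, Module.finrank_fintype_fun_eq_card, card_wtC]
  have hinj : Function.Injective e := (LinearMap.injective_iff_surjective_of_finrank_eq_finrank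
    hdim).2 hsurj
  have hmul : ∀ (v : V) (x : Wt X ℂ), e (F v) x = x.2 (a x.1) * e v x := by
    intro v x
    have hv : v ∈ Submodule.span ℂ (Set.range C.ι) := by
      rw [C.span_eq]
      exact Submodule.mem_top
    induction hv using Submodule.span_induction with
    | mem v hv =>
      obtain ⟨w, rfl⟩ := hv
      rw [hF, he, he]
      exact map_mul x.2 _ _
    | zero => simp
    | add v w _ _ hv hw => rw [map_add, map_add, Pi.add_apply, hv, hw, map_add, Pi.add_apply, mul_add]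
    | smul c v _ hv =>
      rw [map_smul, map_smul, Pi.smul_apply, hv, map_smul, Pi.smul_apply, smul_eq_mul, smul_eq_mul]
      ring
  choose u hu using fun x : Wt X ℂ => hsurj (Pi.single x (1 : ℂ))
  have hFu : ∀ x, F (u x) = x.2 (a x.1) • u x := by
    intro x
    apply hinj
    funext y
    rw [hmul, map_smul, Pi.smul_apply, hu, smul_eq_mul]
    by_cases hxy : y = x
    · rw [hxy]
    · rw [Pi.single_eq_of_ne hxy, mul_zero, mul_zero]
  rw [eq_top_iff]
  rintro v -
  have h1 : v = ∑ x, e v x • u x := by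
    apply hinj
    rw [map_sum]
    simp only [map_smul, hu]
    funext y
    rw [Finset.sum_apply]
    simp only [Pi.smul_apply, smul_eq_mul]
    rw [Finset.sum_eq_single y]
    · rw [Pi.single_eq_same, mul_one]
    · intro x _ hx
      rw [Pi.single_eq_of_ne (Ne.symm hx), mul_zero]
    · intro h
      exact (h (Finset.mem_univ y)).elim
  rw [h1]
  exact Submodule.sum_mem _ fun x _ => Submodule.smul_mem _ _ (Submodule.subset_span
    ⟨_, ⟨x.1, x.2, rfl⟩, hFu x⟩)

open Classical in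
/-- The norm of a Weil number. -/
theorem norm_weil (A : CMPair) (x : A.E) (Q : ℚ) (hx : ∀ φ : A.E →+* ℂ, ‖φ x‖ ^ 2 = (Q : ℝ)) :
    Algebra.norm ℚ x = Q ^ (Fintype.card {φ : A.E →+* ℂ // φ ∈ A.Φ}) := by
  have h1 := Algebra.norm_eq_prod_embeddings ℚ (L := A.E) ℂ x
  have h2 : ∏ φ : A.E →ₐ[ℚ] ℂ, φ x = ∏ φ : A.E →+* ℂ, φ x :=
    (Fintype.prod_equiv (RingHom.equivRatAlgHom A.E ℂ) _ _ (fun φ => rfl)).symm
  rw [h2, eq_ratCast] at h1
  have h3 : ∏ φ : A.E →+* ℂ, φ x = (∏ φ : {φ : A.E →+* ℂ // φ ∈ A.Φ}, (φ : A.E →+* ℂ) x) *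
      ∏ φ : {φ : A.E →+* ℂ // ¬ φ ∈ A.Φ}, (φ : A.E →+* ℂ) x :=
    (Fintype.prod_subtype_mul_prod_subtype (fun φ => φ ∈ A.Φ) (fun φ : A.E →+* ℂ => φ x)).symm
  let e : {φ : A.E →+* ℂ // φ ∈ A.Φ} ≃ {φ : A.E →+* ℂ // ¬ φ ∈ A.Φ} :=
    { toFun := fun φ => ⟨ComplexEmbedding.conjugate φ.1, (A.isCMType φ.1).1 φ.2⟩
      invFun := fun φ => ⟨ComplexEmbedding.conjugate φ.1, by
        have h := A.isCMType (ComplexEmbedding.conjugate φ.1)
        rw [h]
        rw [show ComplexEmbedding.conjugate (ComplexEmbedding.conjugate φ.1) = φ.1 from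
          star_star φ.1]
        exact φ.2⟩
      left_inv := fun φ => Subtype.ext (star_star φ.1)
      right_inv := fun φ => Subtype.ext (star_star φ.1) }
  have h4 : ∏ φ : {φ : A.E →+* ℂ // ¬ φ ∈ A.Φ}, (φ : A.E →+* ℂ) x =
      ∏ φ : {φ : A.E →+* ℂ // φ ∈ A.Φ}, starRingEnd ℂ ((φ : A.E →+* ℂ) x) :=
    (Fintype.prod_equiv e _ _ (fun φ => rfl)).symm
  have h5 : ∀ φ : A.E →+* ℂ, φ x * starRingEnd ℂ (φ x) = (Q : ℂ) := by
    intro φ
    rw [Complex.mul_conj, Complex.normSq_eq_norm_sq, hx φ]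
    push_cast
    rfl
  rw [h3, h4, ← Finset.prod_mul_distrib, Finset.prod_congr rfl (fun φ _ => h5 _),
    Finset.prod_const, Finset.card_univ] at h1
  exact_mod_cast h1

end

end Pool.Agent.W547.DP
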