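import Pool.Agent.W547.DP.PDefs
import Pool.Agent.W547.DP.Zeta

/-!
# The pole formula for ordinary abelian varieties
-/

set_option linter.unusedSectionVars false
set_option linter.unusedVariables false

namespace Pool.Agent.W547.DP

open NumberField Pool.Agent.H204R3.CM Pool.Agent.W547.KB Pool.Agent.W547.LD Pool.Agent.W530.NF
open Equiv Module Pool.Agent.W547.HR

noncomputable section

theorem exists_retraction (K : Type) [Field K] [CharZero K] : ∃ l : K →+ ℚ, l 1 = 1 := by
  let _ : Algebra ℚ K := DivisionRing.toRatAlgebra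
  have h1 : (1 : K) ∉ (⊥ : Submodule ℚ K) := fun h => one_ne_zero ((Submodule.mem_bot ℚ).1 h)
  obtain ⟨l, hl, _⟩ := Submodule.exists_dual_map_eq_bot_of_notMem h1 inferInstance
  refine ⟨((l 1)⁻¹ • l).toAddMonoidHom, ?_⟩
  change (l 1)⁻¹ * l 1 = 1
  exact inv_mul_cancel₀ hl

theorem retraction_cast {K : Type} [Field K] [CharZero K] (l : K →+ ℚ) (hl : l 1 = 1) (a : ℚ) :
    l (a : K) = a := by
  have h1 : ((a : ℚ) : K) = a • (1 : K) := by rw [Rat.smul_def, mul_one]
  rw [h1, map_rat_smul, hl, smul_eq_mul, mul_one]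

/-- Data of an abelian variety whose Tate classes are generated. -/
structure Good (X : CMAV) {K V : Type} [Field K] [CharZero K] [AddCommGroup V] [Module K V]
    (C : Comparison X K V) (F : V →ₗ[K] V) (a : X.H1) (Q : ℕ) : Prop where
  pos : 0 < Q
  apply_eq : ∀ x, F (C.ι x) = C.ι (a * x)
  weil : IsWeilNumber Q X a
  gen : ∀ (n : ℕ) (z : V [⋀^Fin (2 * n)]→ₗ[K] K), IsTateForm F Q z → LN.IsGenerated C z
  ring : ∀ {κ : Type} [Finite κ] (f : X.H1 [⋀^κ]→ₗ[ℚ] ℚ), IsHodge X.per f → DWRing X κ f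

variable {X : CMAV} {K V : Type} [Field K] [CharZero K] [AddCommGroup V] [Module K V]
  {C : Comparison X K V} {F : V →ₗ[K] V} {a : X.H1} {Q : ℕ}

theorem tate_iff (h : Good X C F a Q) {n : ℕ} (z : V [⋀^Fin (2 * n)]→ₗ[K] K) :
    IsTateForm F Q z ↔ ∀ v : Fin (2 * n) → X.H1, onH1 C z (fun k => a * v k) =
      (Q : K) ^ n * onH1 C z v := by
  constructor
  · intro hz v
    have h1 := hz (fun k => C.ι (v k))
    simp only [h.apply_eq] at h1
    exact h1
  · intro hz
    let T : V [⋀^Fin (2 * n)]→ₗ[K] K := z.compLinearMap F - ((Q : K) ^ n) • z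
    have hT : T = 0 := by
      refine LQ.eq_zero_of_restr C T fun v => ?_
      change z (fun k => F (C.ι (v k))) - (Q : K) ^ n * z (fun k => C.ι (v k)) = 0
      simp only [h.apply_eq]
      exact sub_eq_zero.2 (hz v)
    intro v
    have h1 : T v = 0 := by rw [hT]; rfl
    exact sub_eq_zero.1 h1

/-- Rational Tate classes belong to the ring. -/
theorem ring_of_ratEig (h : Good X C F a Q) {n : ℕ} {f : X.H1 [⋀^Fin (2 * n)]→ₗ[ℚ] ℚ}
    (hf : f ∈ RatEig X a ((Q : ℚ) ^ n) (Fin (2 * n))) : DWRing X (Fin (2 * n)) f := by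
  obtain ⟨z, hz⟩ := exists_ext C f
  obtain ⟨l, hl⟩ := exists_retraction K
  have htate : IsTateForm F Q z := by
    rw [tate_iff h]
    intro v
    change z (fun k => C.ι (a * v k)) = _ * z (fun k => C.ι (v k))
    rw [hz, hz, hf v]
    push_cast
    rfl
  obtain ⟨p, hp, hpv⟩ := exists_functional_form C z (h.gen n z htate) l
  have h1 : p = f := by
    ext v
    rw [hpv]
    change l (z (fun k => C.ι (v k))) = _
    rw [hz, retraction_cast l hl]
  rw [← h1]
  exact hp

open Classical in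
theorem norm_prod_weil (h : Good X C F a Q) {N : ℕ} (hN : 2 * N = finrank ℚ X.H1) :
    ∏ i, Algebra.norm ℚ (a i) = (Q : ℚ) ^ N := by
  have h1 : ∀ i, Algebra.norm ℚ (a i) =
      (Q : ℚ) ^ (Fintype.card {φ : (X.factor i).E →+* ℂ // φ ∈ (X.factor i).Φ}) := by
    intro i
    refine norm_weil (X.factor i) (a i) Q fun φ => ?_
    rw [h.weil i φ]
    push_cast
    rfl
  rw [Finset.prod_congr rfl (fun i _ => h1 i), Finset.prod_pow_eq_pow_sum]
  congr 1
  have h2 : finrank ℚ X.H1 = ∑ i, finrank ℚ (X.factor i).E := Module.finrank_pi_fintype ℚ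
  have h3 : ∀ i, finrank ℚ (X.factor i).E =
      2 * Fintype.card {φ : (X.factor i).E →+* ℂ // φ ∈ (X.factor i).Φ} := by
    intro i
    rw [card_type, Nat.card_eq_fintype_card]
  rw [Finset.sum_congr rfl (fun i _ => h3 i), ← Finset.mul_sum] at h2
  omega

/-- Duality for the rational Tate classes. -/
theorem exists_dual_rat (h : Good X C F a Q) {n m : ℕ} (hnm : 2 * (n + m) = finrank ℚ X.H1)
    {f : X.H1 [⋀^Fin (2 * n)]→ₗ[ℚ] ℚ} (hf : f ∈ RatEig X a ((Q : ℚ) ^ n) (Fin (2 * n)))
    (hne : f ≠ 0) : ∃ g ∈ RatEig X a ((Q : ℚ) ^ m) (Fin (2 * m)),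
      ∃ v : Fin (2 * n) ⊕ Fin (2 * m) → X.H1,
        altSum (times (fun u => f u) (fun u => g u)) v ≠ 0 := by
  have hQ : (Q : ℚ) ≠ 0 := Nat.cast_ne_zero.2 h.pos.ne'
  obtain ⟨g, -, hg2, hg3⟩ := exists_dual_class (κ' := Fin (2 * m)) f
    (isHodge_of_ring (ring_of_ratEig h hf)) hne
    (by rw [Fintype.card_fin, Fintype.card_fin]; omega) a ((Q : ℚ) ^ n) ((Q : ℚ) ^ m)
    (pow_ne_zero _ hQ) hf (by rw [norm_prod_weil h hnm, pow_add])
  exact ⟨g, hg2, hg3⟩

theorem ratEig_zero (h : Good X C F a Q) {n : ℕ} (hn : finrank ℚ X.H1 < 2 * n)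
    (f : X.H1 [⋀^Fin (2 * n)]→ₗ[ℚ] ℚ) : f = 0 := by
  ext v
  refine f.map_linearDependent v fun hli => ?_
  have := hli.fintype_card_le_finrank
  rw [Fintype.card_fin] at this
  omega

theorem even_finrank (X : CMAV) : ∃ d, 2 * d = finrank ℚ X.H1 := by
  have h2 : finrank ℚ X.H1 = ∑ i, finrank ℚ (X.factor i).E := Module.finrank_pi_fintype ℚ
  rw [Finset.sum_congr rfl (fun i _ => card_type (X.factor i)), ← Finset.mul_sum] at h2
  exact ⟨_, h2.symm⟩

variable {A : ∀ n : ℕ, Submodule ℚ (V [⋀^Fin (2 * n)]→ₗ[K] K)}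

/-- The classes in a cycle system are rational. -/
theorem rational_of_system (h : Good X C F a Q) (hA : IsCycleSystem C F Q A) {n : ℕ}
    {z : V [⋀^Fin (2 * n)]→ₗ[K] K} (hz : z ∈ A n) (v : Fin (2 * n) → X.H1) :
    ∃ b : ℚ, onH1 C z v = b := by
  obtain ⟨d, hd⟩ := even_finrank X
  rcases Nat.lt_or_ge d n with hn | hn
  · refine ⟨0, ?_⟩
    rw [Rat.cast_zero]
    change z (fun k => C.ι (v k)) = 0
    refine z.map_linearDependent _ fun hli => ?_
    obtain ⟨N, b, b', hb, hc⟩ := exists_basis C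
    have hfin : FiniteDimensional K V := Module.Finite.of_basis b'
    have := hli.fintype_card_le_finrank
    rw [Fintype.card_fin, C.finrank_eq] at this
    omega
  obtain ⟨m, rfl⟩ := Nat.exists_eq_add_of_le hn
  refine rational_of_functionals _ fun l hl => ?_
  obtain ⟨p, hp, hpv⟩ := exists_functional_form C z (h.gen n z (hA.tate n z hz)) l
  have hp2 : p ∈ RatEig X a ((Q : ℚ) ^ n) (Fin (2 * n)) := by
    intro u
    rw [hpv, hpv, (tate_iff h z).1 (hA.tate n z hz) u]
    have h2 : (Q : K) ^ n * onH1 C z u = ((Q : ℚ) ^ n) • onH1 C z u := by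
      rw [Rat.smul_def]
      push_cast
      rfl
    rw [h2, map_rat_smul, smul_eq_mul]
  rw [← hpv]
  by_contra hne
  have hp0 : p ≠ 0 := by
    intro h0
    apply hne
    rw [h0]
    rfl
  obtain ⟨g, hg, u, hu⟩ := exists_dual_rat h hd hp2 hp0
  obtain ⟨w, hw⟩ := exists_ext C g
  have hwt : IsTateForm F Q w := by
    rw [tate_iff h]
    intro v
    change w (fun k => C.ι (a * v k)) = _ * w (fun k => C.ι (v k))
    rw [hw, hw, hg v]
    push_cast
    rfl
  have hwA : w ∈ A m := hA.ring m w g (ring_of_ratEig h hg) hw hwt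
  obtain ⟨b, hb⟩ := hA.rational n m hd z hz w hwA u
  have hb2 : altSum (times (onH1 C z) (fun u => ((g u : ℚ) : K))) u = (b : K) := by
    rw [← hb]
    congr 1
    funext t
    unfold times
    congr 1
    exact (hw _).symm
  have h3 := congrArg l hb2
  rw [functional_altSum] at h3
  have h4 : l (b : K) = 0 := by
    have h5 : ((b : ℚ) : K) = b • (1 : K) := by rw [Rat.smul_def, mul_one]
    rw [h5, map_rat_smul, hl, smul_zero]
  rw [h4] at h3
  apply hu
  rw [← h3]
  congr 1
  funext t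
  unfold times
  beta_reduce
  rw [hpv]

/-- Numerically trivial classes are zero. -/
theorem zero_of_trivial (h : Good X C F a Q) (hA : IsCycleSystem C F Q A) {n : ℕ}
    {z : V [⋀^Fin (2 * n)]→ₗ[K] K} (hz : z ∈ A n) (hnum : IsNumericallyTrivial C A z) : z = 0 := by
  obtain ⟨l, hl⟩ := exists_retraction K
  obtain ⟨p, hp, hpv⟩ := exists_functional_form C z (h.gen n z (hA.tate n z hz)) l
  have hzp : ∀ v, onH1 C z v = (p v : K) := by
    intro v
    obtain ⟨b, hb⟩ := rational_of_system h hA hz v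
    rw [hpv, hb, retraction_cast l hl]
  have hp2 : p ∈ RatEig X a ((Q : ℚ) ^ n) (Fin (2 * n)) := by
    intro u
    rw [hpv, hpv, (tate_iff h z).1 (hA.tate n z hz) u]
    have h2 : (Q : K) ^ n * onH1 C z u = ((Q : ℚ) ^ n) • onH1 C z u := by
      rw [Rat.smul_def]
      push_cast
      rfl
    rw [h2, map_rat_smul, smul_eq_mul]
  have hp0 : p = 0 := by
    by_contra hne
    obtain ⟨d, hd⟩ := even_finrank X
    rcases Nat.lt_or_ge d n with hn | hn
    · exact hne (ratEig_zero h (by omega) p)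
    obtain ⟨m, rfl⟩ := Nat.exists_eq_add_of_le hn
    obtain ⟨g, hg, u, hu⟩ := exists_dual_rat h hd hp2 hne
    obtain ⟨w, hw⟩ := exists_ext C g
    have hwt : IsTateForm F Q w := by
      rw [tate_iff h]
      intro v
      change w (fun k => C.ι (a * v k)) = _ * w (fun k => C.ι (v k))
      rw [hw, hw, hg v]
      push_cast
      rfl
    have hwA : w ∈ A m := hA.ring m w g (ring_of_ratEig h hg) hw hwt
    have h1 := hnum m hd w hwA u
    have h2 : altSum (times (onH1 C z) (onH1 C w)) u =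
        ((altSum (times (fun u => p u) (fun u => g u)) u : ℚ) : K) := by
      unfold altSum times
      rw [Rat.cast_sum]
      refine Finset.sum_congr rfl fun σ _ => ?_
      rw [hzp, show onH1 C w (fun q => u (σ (Sum.inr q))) = _ from hw _]
      push_cast
      rfl
    rw [h1] at h2
    apply hu
    exact_mod_cast h2.symm
  refine LQ.eq_zero_of_restr C z fun v => ?_
  have h1 := hzp v
  rw [hp0] at h1
  rw [show z (fun k => C.ι (v k)) = onH1 C z v from rfl, h1]
  exact Rat.cast_zero

/-- The rational dimension of the space of classes of cycles. -/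
theorem finrank_system (h : Good X C F a Q) (hA : IsCycleSystem C F Q A) (n : ℕ) :
    finrank ℚ (A n) = finrank ℚ (RatEig X a ((Q : ℚ) ^ n) (Fin (2 * n))) := by
  obtain ⟨l, hl⟩ := exists_retraction K
  have hex : ∀ z : A n, ∃ p ∈ RatEig X a ((Q : ℚ) ^ n) (Fin (2 * n)), ∀ v, onH1 C z v = (p v : K) := by
    rintro ⟨z, hz⟩
    obtain ⟨p, hp, hpv⟩ := exists_functional_form C z (h.gen n z (hA.tate n z hz)) l
    refine ⟨p, ?_, fun v => ?_⟩
    · intro u
      rw [hpv, hpv, (tate_iff h z).1 (hA.tate n z hz) u]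
      have h2 : (Q : K) ^ n * onH1 C z u = ((Q : ℚ) ^ n) • onH1 C z u := by
        rw [Rat.smul_def]
        push_cast
        rfl
      rw [h2, map_rat_smul, smul_eq_mul]
    · obtain ⟨b, hb⟩ := rational_of_system h hA hz v
      rw [hpv]
      change onH1 C z v = ((l (onH1 C z v) : ℚ) : K)
      rw [hb, retraction_cast l hl]
  choose p hp hpv using hex
  let T : A n →ₗ[ℚ] RatEig X a ((Q : ℚ) ^ n) (Fin (2 * n)) :=
    { toFun := fun z => ⟨p z, hp z⟩
      map_add' := fun z w => by
        apply Subtype.ext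
        change p (z + w) = p z + p w
        ext v
        have h1 : ((p (z + w) v : ℚ) : K) = ((p z v + p w v : ℚ) : K) := by
          rw [← hpv (z + w) v]
          push_cast
          rw [← hpv z v, ← hpv w v]
          rfl
        exact_mod_cast h1
      map_smul' := fun c z => by
        apply Subtype.ext
        change p (c • z) = c • p z
        ext v
        have h1 : ((p (c • z) v : ℚ) : K) = ((c * p z v : ℚ) : K) := by
          rw [← hpv (c • z) v]
          push_cast
          rw [← hpv z v]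
          change c • (onH1 C z v) = _
          rw [Rat.smul_def]
        exact_mod_cast h1 }
  have hinj : Function.Injective T := by
    intro z w hzw
    have h1 : p z = p w := congrArg Subtype.val hzw
    apply Subtype.ext
    rw [← sub_eq_zero]
    refine LQ.eq_zero_of_restr C _ fun v => ?_
    change onH1 C z v - onH1 C w v = 0
    rw [hpv, hpv, h1, sub_self]
  have hsurj : Function.Surjective T := by
    rintro ⟨g, hg⟩
    obtain ⟨w, hw⟩ := exists_ext C g
    have hwt : IsTateForm F Q w := by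
      rw [tate_iff h]
      intro v
      change w (fun k => C.ι (a * v k)) = _ * w (fun k => C.ι (v k))
      rw [hw, hw, hg v]
      push_cast
      rfl
    have hwA : w ∈ A n := hA.ring n w g (ring_of_ratEig h hg) hw hwt
    refine ⟨⟨w, hwA⟩, ?_⟩
    apply Subtype.ext
    change p ⟨w, hwA⟩ = g
    ext v
    have h1 := hpv ⟨w, hwA⟩ v
    have h2 : onH1 C w v = ((g v : ℚ) : K) := hw v
    have h3 : ((p ⟨w, hwA⟩ v : ℚ) : K) = ((g v : ℚ) : K) := by
      rw [← h1]
      exact h2
    exact_mod_cast h3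
  exact LinearEquiv.finrank_eq (LinearEquiv.ofBijective T ⟨hinj, hsurj⟩)

end

end Pool.Agent.W547.DP
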