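import Mathlib

/-!
# The cup product pairing between forms of complementary degrees is nondegenerate
-/

namespace Pool.Agent.W547.DP

open Equiv Module

noncomputable section

variable {κ κ' : Type} [Fintype κ] [DecidableEq κ] [Fintype κ'] [DecidableEq κ']

theorem sumExtend_inl {K V ι : Type*} [DivisionRing K] [AddCommGroup V] [Module K V] {v : ι → V}
    (hs : LinearIndependent K v) (k : ι) : Basis.sumExtend hs (Sum.inl k) = v k := by
  unfold Basis.sumExtend
  simp only [Basis.reindex_apply]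
  rw [Basis.extend_apply_self]
  rfl

theorem permMatrix_eq {n : Type*} [DecidableEq n] (σ : Equiv.Perm n) :
    (Equiv.Perm.permMatrix ℚ σ : Matrix n n ℚ) =
      Matrix.of fun k l => if σ k = l then (1 : ℚ) else 0 := by
  ext k l
  simp [Equiv.Perm.permMatrix, PEquiv.toMatrix_apply]

theorem exists_pairing {H : Type} [AddCommGroup H] [Module ℚ H] [FiniteDimensional ℚ H]
    (hcard : Fintype.card κ + Fintype.card κ' = finrank ℚ H) (f : H [⋀^κ]→ₗ[ℚ] ℚ) (hf : f ≠ 0) :
    ∃ (g : H [⋀^κ']→ₗ[ℚ] ℚ) (v : κ ⊕ κ' → H), ∑ σ : Perm (κ ⊕ κ'), ((Perm.sign σ : ℤ) : ℚ) *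
      (f (fun k => v (σ (Sum.inl k))) * g (fun k => v (σ (Sum.inr k)))) ≠ 0 := by
  classical
  obtain ⟨v0, hv0⟩ : ∃ v0, f v0 ≠ 0 := by
    by_contra h
    push Not at h
    exact hf (AlternatingMap.ext h)
  have hli : LinearIndependent ℚ v0 := by
    by_contra h
    exact hv0 (f.map_linearDependent v0 h)
  let b0 := Basis.sumExtend hli
  have hfin : Finite (Basis.sumExtendIndex hli) := by
    have h1 := Module.Finite.finite_basis b0
    exact Finite.of_injective (Sum.inr : _ → κ ⊕ Basis.sumExtendIndex hli) Sum.inr_injective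
  have := Fintype.ofFinite (Basis.sumExtendIndex hli)
  have hc : Fintype.card (Basis.sumExtendIndex hli) = Fintype.card κ' := by
    have h1 := Module.finrank_eq_card_basis b0
    rw [Fintype.card_sum] at h1
    omega
  let e : Basis.sumExtendIndex hli ≃ κ' := Fintype.equivOfCardEq hc
  let b : Basis (κ ⊕ κ') ℚ H := b0.reindex (Equiv.sumCongr (Equiv.refl κ) e)
  have hbl : ∀ k, b (Sum.inl k) = v0 k := by
    intro k
    change b0.reindex (Equiv.sumCongr (Equiv.refl κ) e) (Sum.inl k) = v0 k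
    rw [Basis.reindex_apply]
    exact sumExtend_inl hli k
  let g : H [⋀^κ']→ₗ[ℚ] ℚ :=
    Matrix.detRowAlternating.compLinearMap (LinearMap.pi (fun l => b.coord (Sum.inr l)))
  have hg : ∀ u : κ' → H, g u = Matrix.det (Matrix.of fun k l => b.coord (Sum.inr l) (u k)) :=
    fun u => rfl
  refine ⟨g, fun s => b s, ?_⟩
  have hsum : ∑ τ : Perm κ × Perm κ', f v0 = ∑ σ : Perm (κ ⊕ κ'), ((Perm.sign σ : ℤ) : ℚ) *
      (f (fun k => b (σ (Sum.inl k))) * g (fun k => b (σ (Sum.inr k)))) := by
    refine Fintype.sum_of_injective (fun τ : Perm κ × Perm κ' => Perm.sumCongr τ.1 τ.2)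
      ?_ _ _ ?_ ?_
    · intro τ τ' h
      exact Equiv.Perm.sumCongrHom_injective h
    · intro σ hσ
      have h1 : ¬ Set.MapsTo σ (Set.range Sum.inr) (Set.range Sum.inr) := by
        intro h2
        apply hσ
        have h3 : Set.MapsTo σ (Set.range (Sum.inl : κ → κ ⊕ κ')) (Set.range Sum.inl) :=
          (Equiv.Perm.perm_mapsTo_inl_iff_mapsTo_inr σ).2 h2
        obtain ⟨τ, hτ⟩ := Equiv.Perm.mem_sumCongrHom_range_of_perm_mapsTo_inl h3
        exact ⟨τ, hτ⟩
      have h2 : ∃ k, ∃ k', σ (Sum.inr k) = Sum.inl k' := by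
        by_contra h3
        apply h1
        rintro _ ⟨k, rfl⟩
        rcases h4 : σ (Sum.inr k) with k' | k'
        · exact (h3 ⟨k, k', h4⟩).elim
        · exact ⟨k', rfl⟩
      obtain ⟨k, k', hk⟩ := h2
      have h3 : g (fun k => b (σ (Sum.inr k))) = 0 := by
        rw [hg]
        refine Matrix.det_eq_zero_of_row_eq_zero k fun l => ?_
        rw [Matrix.of_apply, hk, Basis.coord_apply, Basis.repr_self, Finsupp.single_eq_of_ne]
        simp
      rw [h3, mul_zero, mul_zero]
    · rintro ⟨τ, τ'⟩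
      have h1 : (fun k => b ((Perm.sumCongr τ τ') (Sum.inl k))) = fun k => v0 (τ k) := by
        funext k
        rw [← hbl]
        rfl
      have h2 : g (fun k => b ((Perm.sumCongr τ τ') (Sum.inr k))) = ((Perm.sign τ' : ℤ) : ℚ) := by
        rw [hg, ← Matrix.det_permutation τ', permMatrix_eq]
        congr 1
        ext k l
        rw [Matrix.of_apply, Matrix.of_apply, Basis.coord_apply]
        change b.repr (b (Sum.inr (τ' k))) (Sum.inr l) = _
        rw [Basis.repr_self, Finsupp.single_apply]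
        simp only [Sum.inr.injEq]
      have h3 : f (fun k => v0 (τ k)) = ((Perm.sign τ : ℤ) : ℚ) * f v0 := by
        have := f.map_perm v0 τ
        rw [Units.smul_def, zsmul_eq_mul] at this
        exact this
      simp only
      rw [h2, h1, h3, Perm.sign_sumCongr]
      have h4 : ((Perm.sign τ : ℤ) : ℚ) * ((Perm.sign τ : ℤ) : ℚ) = 1 := by
        rw [← Int.cast_mul, ← Units.val_mul, Int.units_mul_self, Units.val_one, Int.cast_one]
      have h5 : ((Perm.sign τ' : ℤ) : ℚ) * ((Perm.sign τ' : ℤ) : ℚ) = 1 := by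
        rw [← Int.cast_mul, ← Units.val_mul, Int.units_mul_self, Units.val_one, Int.cast_one]
      push_cast
      linear_combination (-f v0) * h4 * 1 - (f v0) * ((Perm.sign τ : ℤ) : ℚ) * ((Perm.sign τ : ℤ) : ℚ) * h5
  rw [← hsum, Finset.sum_const, nsmul_eq_mul]
  refine mul_ne_zero ?_ hv0
  rw [Finset.card_univ]
  exact Nat.cast_ne_zero.2 Fintype.card_ne_zero

end

end Pool.Agent.W547.DP
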